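import Pool.Agent.R960.GI.Pars

/-! # A kernel inequality on the circle -/

set_option autoImplicit false

open Finset Polynomial

namespace Pool.Agent.R960.GI

lemma s_le {z : ℂ} (hz : ‖z‖ = 1) (m : ℕ) : ‖∑ i ∈ range m, z ^ i‖ ≤ m := by
  refine (norm_sum_le _ _).trans ?_
  have : ∀ i ∈ range m, ‖z ^ i‖ = 1 := fun i _ => by rw [norm_pow, hz, one_pow]
  rw [Finset.sum_congr rfl this]
  simp

lemma s_mul (z : ℂ) (m : ℕ) : ‖∑ i ∈ range m, z ^ i‖ * ‖1 - z‖ = ‖1 - z ^ m‖ := by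
  rw [← norm_mul, geom_sum_mul_neg]

lemma s_mul_le {z : ℂ} (hz : ‖z‖ = 1) (m : ℕ) : ‖∑ i ∈ range m, z ^ i‖ * ‖1 - z‖ ≤ 2 := by
  rw [s_mul]
  refine (norm_sub_le _ _).trans ?_
  rw [norm_one, norm_pow, hz, one_pow]
  norm_num

lemma pow_sub {z : ℂ} (hz : ‖z‖ = 1) (i : ℕ) : ‖z ^ i - 1‖ ≤ i * ‖1 - z‖ := by
  induction i with
  | zero => simp
  | succ i ih =>
    have e : z ^ (i + 1) - 1 = z * (z ^ i - 1) + (z - 1) := by ring
    rw [e]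
    refine (norm_add_le _ _).trans ?_
    rw [norm_mul, hz, one_mul, norm_sub_rev z 1]
    push_cast
    linarith

lemma s_ge {z : ℂ} (hz : ‖z‖ = 1) (m : ℕ) :
    (m : ℝ) - (m : ℝ) ^ 2 * ‖1 - z‖ / 2 ≤ ‖∑ i ∈ range m, z ^ i‖ := by
  have h1 : ‖∑ i ∈ range m, z ^ i - m‖ ≤ (m : ℝ) ^ 2 * ‖1 - z‖ / 2 := by
    have e : ∑ i ∈ range m, z ^ i - m = ∑ i ∈ range m, (z ^ i - 1) := by
      rw [Finset.sum_sub_distrib]
      simp
    rw [e]
    refine (norm_sum_le _ _).trans ?_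
    refine (Finset.sum_le_sum fun i _ => pow_sub hz i).trans ?_
    rw [← Finset.sum_mul]
    have h2 : ∑ i ∈ range m, (i : ℝ) ≤ (m : ℝ) ^ 2 / 2 := by
      have h3 := Finset.sum_range_id_mul_two m
      have h4 : (∑ i ∈ range m, (i : ℝ)) * 2 ≤ (m : ℝ) ^ 2 := by
        have h5 : (∑ i ∈ range m, i) * 2 ≤ m ^ 2 := by
          rw [h3, _root_.sq]
          exact Nat.mul_le_mul_left _ (Nat.sub_le _ _)
        have h6 : (((∑ i ∈ range m, i) * 2 : ℕ) : ℝ) ≤ ((m ^ 2 : ℕ) : ℝ) := Nat.cast_le.mpr h5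
        rw [Nat.cast_mul, Nat.cast_sum, Nat.cast_pow, Nat.cast_ofNat] at h6
        exact h6
      linarith
    calc (∑ i ∈ range m, (i : ℝ)) * ‖1 - z‖ ≤ (m : ℝ) ^ 2 / 2 * ‖1 - z‖ :=
          mul_le_mul_of_nonneg_right h2 (norm_nonneg _)
      _ = _ := by ring
  have h6 : (m : ℝ) = ‖(m : ℂ)‖ := by simp
  have h7 : ‖(m : ℂ)‖ ≤ ‖∑ i ∈ range m, z ^ i‖ + ‖∑ i ∈ range m, z ^ i - m‖ := by
    have := norm_sub_norm_le (m : ℂ) (∑ i ∈ range m, z ^ i)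
    rw [norm_sub_rev] at this
    linarith
  linarith

lemma one_sub_sq {z : ℂ} (hz : ‖z‖ = 1) (m : ℕ) : ‖1 - z ^ m‖ ^ 2 = 2 - 2 * (z ^ m).re := by
  have h1 : ‖z ^ m‖ = 1 := by rw [norm_pow, hz, one_pow]
  have h2 : (z ^ m).re ^ 2 + (z ^ m).im ^ 2 = 1 := by
    have := Complex.sq_norm (z ^ m)
    rw [h1, Complex.normSq_apply] at this
    nlinarith
  rw [Complex.sq_norm, Complex.normSq_apply]
  simp only [Complex.sub_re, Complex.one_re, Complex.sub_im, Complex.one_im]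
  nlinarith

lemma avg_ge {z : ℂ} (hz : ‖z‖ = 1) {M : ℕ} (hM : 4 ≤ (M : ℝ) * ‖1 - z‖) :
    (M : ℝ) ≤ ∑ m ∈ Ico M (2 * M), ‖1 - z ^ m‖ ^ 2 := by
  have hu : 0 < ‖1 - z‖ := by
    rcases (norm_nonneg (1 - z)).eq_or_lt with h | h
    · rw [← h, mul_zero] at hM
      linarith
    · exact h
  have e1 : ∑ m ∈ Ico M (2 * M), ‖1 - z ^ m‖ ^ 2 =
      2 * M - 2 * (z ^ M * ∑ i ∈ range M, z ^ i).re := by
    simp_rw [one_sub_sq hz]
    have e2 : 2 * M - M = M := by omega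
    have e4 : (z ^ M * ∑ i ∈ range M, z ^ i).re = ∑ i ∈ range M, (z ^ (M + i)).re := by
      rw [Finset.mul_sum, Complex.re_sum]
      exact Finset.sum_congr rfl fun i _ => by rw [pow_add]
    rw [e4, Finset.sum_Ico_eq_sum_range, e2, Finset.sum_sub_distrib, ← Finset.mul_sum,
      Finset.sum_const, Finset.card_range, nsmul_eq_mul]
    ring
  rw [e1]
  have h1 : (z ^ M * ∑ i ∈ range M, z ^ i).re ≤ ‖∑ i ∈ range M, z ^ i‖ := by
    refine (Complex.re_le_norm _).trans ?_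
    rw [norm_mul, norm_pow, hz, one_pow, one_mul]
  have h2 := s_mul_le hz M
  have h3 : ‖∑ i ∈ range M, z ^ i‖ ≤ M / 2 := by
    rw [le_div_iff₀ (by norm_num)]
    by_contra hcon
    push Not at hcon
    have h4 : (M : ℝ) * ‖1 - z‖ < ‖∑ i ∈ range M, z ^ i‖ * 2 * ‖1 - z‖ :=
      mul_lt_mul_of_pos_right hcon hu
    nlinarith
  linarith

/-- the functional at one scale -/
noncomputable def BB (j : ℕ) (Φ : ℕ → ℝ) : ℝ :=
  2 * Φ (2 ^ j) + (1 / (8 * 2 ^ j : ℝ)) * ∑ m ∈ Ico (8 * 2 ^ j) (2 * (8 * 2 ^ j)), Φ m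

lemma BB_lower {z : ℂ} (hz : ‖z‖ = 1) {l j : ℕ} (hlj : l ≤ j) (hl : 2 ^ l * ‖1 - z‖ ≤ 2) :
    (4 : ℝ) ^ l / 4 ≤ BB j (fun m => ‖∑ i ∈ range m, z ^ i‖ ^ 2) := by
  obtain ⟨u, hu⟩ : ∃ u, u = ‖1 - z‖ := ⟨_, rfl⟩
  have hu0 : 0 ≤ u := by rw [hu]; exact norm_nonneg _
  have h4l : (4 : ℝ) ^ l = (2 ^ l) ^ 2 := by rw [← pow_mul, mul_comm, pow_mul]; norm_num
  have h2j : (0 : ℝ) < 2 ^ j := by positivity
  have h2l : (0 : ℝ) < 2 ^ l := by positivity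
  have hllj : (2 : ℝ) ^ l ≤ 2 ^ j := pow_le_pow_right₀ (by norm_num) hlj
  unfold BB
  rcases le_or_gt (4 : ℝ) (((8 * 2 ^ j : ℕ) : ℝ) * ‖1 - z‖) with h | h
  · have h1 := avg_ge hz h
    have hupos : 0 < u := by
      rcases hu0.eq_or_lt with h' | h'
      · rw [← hu, ← h', mul_zero] at h
        linarith
      · exact h'
    have e1 : ∑ m ∈ Ico (8 * 2 ^ j) (2 * (8 * 2 ^ j)), ‖1 - z ^ m‖ ^ 2 =
        u ^ 2 * ∑ m ∈ Ico (8 * 2 ^ j) (2 * (8 * 2 ^ j)), ‖∑ i ∈ range m, z ^ i‖ ^ 2 := by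
      rw [Finset.mul_sum]
      refine Finset.sum_congr rfl fun m _ => ?_
      rw [← s_mul, mul_pow, hu]
      ring
    rw [e1] at h1
    push_cast at h1
    obtain ⟨Q, hQ⟩ : ∃ Q, Q = ∑ m ∈ Ico (8 * 2 ^ j) (2 * (8 * 2 ^ j)),
      ‖∑ i ∈ range m, z ^ i‖ ^ 2 := ⟨_, rfl⟩
    rw [← hQ] at h1 ⊢
    have h2 : (2 ^ l * u) ^ 2 ≤ 4 := by
      have h3 : 2 ^ l * u ≤ 2 := by rw [hu]; exact hl
      have h4 : 0 ≤ 2 ^ l * u := by positivity
      nlinarith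
    have h5 : (4 : ℝ) ^ l / 4 ≤ (1 / (8 * 2 ^ j : ℝ)) * Q := by
      rw [h4l, div_le_iff₀ (by norm_num), one_div, inv_mul_eq_div, div_mul_eq_mul_div,
        le_div_iff₀ (by positivity)]
      have h6 : (2 ^ l) ^ 2 * (8 * 2 ^ j) ≤ (2 ^ l) ^ 2 * (u ^ 2 * Q) :=
        mul_le_mul_of_nonneg_left h1 (by positivity)
      have h7 : 0 ≤ Q := by
        rw [hQ]
        exact Finset.sum_nonneg fun _ _ => by positivity
      nlinarith
    have h8 : 0 ≤ 2 * ‖∑ i ∈ range (2 ^ j), z ^ i‖ ^ 2 := by positivity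
    linarith
  · have h1 := s_ge hz (2 ^ j)
    push_cast at h h1
    rw [← hu] at h h1
    have h2 : (3 / 4 : ℝ) * 2 ^ j ≤ ‖∑ i ∈ range (2 ^ j), z ^ i‖ := by
      have h3 : 2 ^ j * (2 ^ j * u) ≤ 2 ^ j * (1 / 2) :=
        mul_le_mul_of_nonneg_left (by linarith) h2j.le
      nlinarith
    have h3 : (9 / 16 : ℝ) * (2 ^ j) ^ 2 ≤ ‖∑ i ∈ range (2 ^ j), z ^ i‖ ^ 2 := by
      have := pow_le_pow_left₀ (by positivity) h2 2
      nlinarith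
    have h4 : 0 ≤ (1 / (8 * 2 ^ j : ℝ)) * ∑ m ∈ Ico (8 * 2 ^ j) (2 * (8 * 2 ^ j)),
        ‖∑ i ∈ range m, z ^ i‖ ^ 2 := by
      apply mul_nonneg (by positivity)
      exact Finset.sum_nonneg fun _ _ => by positivity
    have h5 : ((2 : ℝ) ^ l) ^ 2 ≤ (2 ^ j) ^ 2 := pow_le_pow_left₀ h2l.le hllj 2
    rw [h4l]
    nlinarith

/-- the functional -/
noncomputable def MajS (J : ℕ) (Φ : ℕ → ℝ) : ℝ :=
  ∑ j ∈ range J, (1 / ((j : ℝ) + 1) ^ 3) * BB j Φ + (1 / ((J : ℝ) + 1) ^ 2) * BB J Φ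

lemma BB_nonneg (j : ℕ) {Φ : ℕ → ℝ} (h : ∀ m, 0 ≤ Φ m) : 0 ≤ BB j Φ := by
  unfold BB
  have h1 := h (2 ^ j)
  have h2 : 0 ≤ ∑ m ∈ Ico (8 * 2 ^ j) (2 * (8 * 2 ^ j)), Φ m := Finset.sum_nonneg fun m _ => h m
  positivity

lemma cube_sum {l J : ℕ} (h : l ≤ J) :
    (1 / 2 : ℝ) * (1 / ((l : ℝ) + 1) ^ 2 - 1 / ((J : ℝ) + 1) ^ 2) ≤
      ∑ j ∈ Ico l J, 1 / ((j : ℝ) + 1) ^ 3 := by
  induction J, h using Nat.le_induction with
  | base => simp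
  | succ J hJ ih =>
    rw [Finset.sum_Ico_succ_top hJ]
    have hJ0 : (0 : ℝ) ≤ J := Nat.cast_nonneg J
    have key : (1 / 2 : ℝ) * (1 / ((J : ℝ) + 1) ^ 2 - 1 / ((J : ℝ) + 1 + 1) ^ 2) ≤
        1 / ((J : ℝ) + 1) ^ 3 := by
      rw [div_sub_div _ _ (by positivity) (by positivity), div_mul_div_comm,
        div_le_div_iff₀ (by positivity) (by positivity)]
      nlinarith [pow_nonneg hJ0 2, pow_nonneg hJ0 3, pow_nonneg hJ0 4, pow_nonneg hJ0 5]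
    push_cast
    linarith

lemma maj_lower {z : ℂ} (hz : ‖z‖ = 1) {l J : ℕ} (hlJ : l ≤ J) (hl : 2 ^ l * ‖1 - z‖ ≤ 2) :
    (4 : ℝ) ^ l / (8 * ((l : ℝ) + 1) ^ 2) ≤ MajS J (fun m => ‖∑ i ∈ range m, z ^ i‖ ^ 2) := by
  obtain ⟨Φ, hΦ⟩ : ∃ Φ : ℕ → ℝ, Φ = fun m => ‖∑ i ∈ range m, z ^ i‖ ^ 2 := ⟨_, rfl⟩
  rw [← hΦ]
  have hΦ0 : ∀ m, 0 ≤ Φ m := fun m => by rw [hΦ]; positivity
  have hB : ∀ j, l ≤ j → (4 : ℝ) ^ l / 4 ≤ BB j Φ := fun j hj => by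
    rw [hΦ]
    exact BB_lower hz hj hl
  unfold MajS
  have h1 : ∑ j ∈ Ico l J, (1 / ((j : ℝ) + 1) ^ 3) * (4 ^ l / 4) ≤
      ∑ j ∈ range J, (1 / ((j : ℝ) + 1) ^ 3) * BB j Φ := by
    calc ∑ j ∈ Ico l J, (1 / ((j : ℝ) + 1) ^ 3) * (4 ^ l / 4)
        ≤ ∑ j ∈ Ico l J, (1 / ((j : ℝ) + 1) ^ 3) * BB j Φ :=
          Finset.sum_le_sum fun j hj =>
            mul_le_mul_of_nonneg_left (hB j (Finset.mem_Ico.mp hj).1) (by positivity)
      _ ≤ _ := by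
          apply Finset.sum_le_sum_of_subset_of_nonneg
          · intro j hj
            exact Finset.mem_range.mpr (Finset.mem_Ico.mp hj).2
          · intro j _ _
            have := BB_nonneg j hΦ0
            positivity
  rw [← Finset.sum_mul] at h1
  have h2 : (1 / ((J : ℝ) + 1) ^ 2) * (4 ^ l / 4) ≤ (1 / ((J : ℝ) + 1) ^ 2) * BB J Φ :=
    mul_le_mul_of_nonneg_left (hB J hlJ) (by positivity)
  have h3 := cube_sum hlJ
  have h4 : (0 : ℝ) ≤ 4 ^ l / 4 := by positivity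
  have h5 := mul_le_mul_of_nonneg_right h3 h4
  have h6 : (0 : ℝ) ≤ 1 / ((J : ℝ) + 1) ^ 2 * (4 ^ l / 4) := by positivity
  have e : (4 : ℝ) ^ l / (8 * ((l : ℝ) + 1) ^ 2) =
      1 / 2 * (1 / ((l : ℝ) + 1) ^ 2) * (4 ^ l / 4) := by
    field_simp
    norm_num
  rw [e]
  nlinarith

lemma geo_sum {l : ℕ} (hl : 2 ≤ l) : ∑ j ∈ Icc 1 l, (2 : ℝ) ^ j / j ≤ 4 * 2 ^ l / ((l : ℝ) + 1) := by
  induction l, hl using Nat.le_induction with
  | base =>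
    have : Icc 1 2 = ({1, 2} : Finset ℕ) := rfl
    rw [this, Finset.sum_pair (by norm_num)]
    norm_num
  | succ l hl ih =>
    rw [Finset.sum_Icc_succ_top (by omega)]
    have hl2 : (2 : ℝ) ≤ l := by exact_mod_cast hl
    push_cast
    have h1 : 4 * 2 ^ l / ((l : ℝ) + 1) + 2 ^ (l + 1) / ((l : ℝ) + 1) ≤
        4 * 2 ^ (l + 1) / ((l : ℝ) + 1 + 1) := by
      rw [← add_div, div_le_div_iff₀ (by positivity) (by positivity), pow_succ]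
      have : (0 : ℝ) < 2 ^ l := by positivity
      nlinarith
    linarith

lemma geo_sum' (l : ℕ) : ∑ j ∈ Icc 1 l, (2 : ℝ) ^ j / j ≤ 4 * 2 ^ l / ((l : ℝ) + 1) := by
  rcases le_or_gt 2 l with h | h
  · exact geo_sum h
  · interval_cases l
    · simp
    · norm_num

lemma tail_sum {l J : ℕ} (h : l ≤ J) :
    ∑ j ∈ Ioc l J, (1 / (j : ℝ)) * (1 / 2 ^ j) ≤ 1 / (((l : ℝ) + 1) * 2 ^ l) := by
  have h1 : ∀ j ∈ Ioc l J, (1 / (j : ℝ)) * (1 / 2 ^ j) ≤ (1 / ((l : ℝ) + 1)) * (1 / 2 ^ j) := by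
    intro j hj
    rw [Finset.mem_Ioc] at hj
    apply mul_le_mul_of_nonneg_right _ (by positivity)
    apply one_div_le_one_div_of_le (by positivity)
    exact_mod_cast hj.1
  refine (Finset.sum_le_sum h1).trans ?_
  rw [← Finset.mul_sum]
  have h2 : ∑ j ∈ Ioc l J, (1 / (2 : ℝ) ^ j) ≤ 1 / 2 ^ l - 1 / 2 ^ J := by
    induction J, h using Nat.le_induction with
    | base => simp
    | succ J hJ ih =>
      rw [Finset.sum_Ioc_succ_top hJ]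
      have e : (1 : ℝ) / 2 ^ J = 1 / 2 ^ (J + 1) + 1 / 2 ^ (J + 1) := by
        rw [pow_succ]
        field_simp
        norm_num
      have := ih (fun j hj => h1 j (by
        rw [Finset.mem_Ioc] at hj ⊢
        omega))
      linarith
  have h3 : (0 : ℝ) ≤ 1 / 2 ^ J := by positivity
  calc (1 / ((l : ℝ) + 1)) * ∑ j ∈ Ioc l J, (1 / (2 : ℝ) ^ j)
      ≤ (1 / ((l : ℝ) + 1)) * (1 / 2 ^ l) :=
        mul_le_mul_of_nonneg_left (by linarith) (by positivity)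
    _ = _ := by rw [one_div_mul_one_div]

/-- **the kernel inequality** -/
theorem kern {z : ℂ} (hz : ‖z‖ = 1) (J : ℕ) :
    (∑ j ∈ Icc 1 J, (1 / (j : ℝ)) * ((1 / 2 ^ j) * ‖∑ i ∈ range (2 ^ j), z ^ i‖ ^ 2)) ^ 2 ≤
      512 * MajS J (fun m => ‖∑ i ∈ range m, z ^ i‖ ^ 2) := by
  classical
  obtain ⟨u, hu⟩ : ∃ u, u = ‖1 - z‖ := ⟨_, rfl⟩
  have hu0 : 0 ≤ u := by rw [hu]; exact norm_nonneg _
  have hu2 : u ≤ 2 := by
    rw [hu]
    refine (norm_sub_le _ _).trans ?_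
    rw [norm_one, hz]
    norm_num
  obtain ⟨l, hlJ, hl, hl2⟩ : ∃ l, l ≤ J ∧ 2 ^ l * u ≤ 2 ∧ (l = J ∨ 2 < 2 ^ (l + 1) * u) := by
    have hne : ((range (J + 1)).filter (fun l => (2 : ℝ) ^ l * u ≤ 2)).Nonempty := by
      refine ⟨0, ?_⟩
      rw [Finset.mem_filter]
      refine ⟨Finset.mem_range.mpr (by omega), by simpa using hu2⟩
    obtain ⟨l, hl⟩ : ∃ l, l = ((range (J + 1)).filter (fun l => (2 : ℝ) ^ l * u ≤ 2)).max' hne :=
      ⟨_, rfl⟩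
    have h1 := Finset.max'_mem _ hne
    rw [← hl, Finset.mem_filter, Finset.mem_range] at h1
    refine ⟨l, by omega, h1.2, ?_⟩
    by_cases h2 : l = J
    · exact Or.inl h2
    · right
      by_contra hcon
      push Not at hcon
      have h3 : l + 1 ∈ (range (J + 1)).filter (fun l => (2 : ℝ) ^ l * u ≤ 2) := by
        rw [Finset.mem_filter, Finset.mem_range]
        exact ⟨by omega, hcon⟩
      have h4 := Finset.le_max' _ _ h3
      omega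
  have hl0 : (0 : ℝ) ≤ l := Nat.cast_nonneg l
  have h2l : (0 : ℝ) < 2 ^ l := by positivity
  -- the bound for the sum
  have hsum : ∑ j ∈ Icc 1 J, (1 / (j : ℝ)) * ((1 / 2 ^ j) * ‖∑ i ∈ range (2 ^ j), z ^ i‖ ^ 2) ≤
      8 * 2 ^ l / ((l : ℝ) + 1) := by
    have hsplit : Icc 1 J = Icc 1 l ∪ Ioc l J := by
      ext j
      simp only [Finset.mem_union, Finset.mem_Icc, Finset.mem_Ioc]
      omega
    have hdisj : Disjoint (Icc 1 l) (Ioc l J) := by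
      rw [Finset.disjoint_left]
      intro j h1 h2
      rw [Finset.mem_Icc] at h1
      rw [Finset.mem_Ioc] at h2
      omega
    rw [hsplit, Finset.sum_union hdisj]
    have h1 : ∑ j ∈ Icc 1 l, (1 / (j : ℝ)) * ((1 / 2 ^ j) * ‖∑ i ∈ range (2 ^ j), z ^ i‖ ^ 2) ≤
        4 * 2 ^ l / ((l : ℝ) + 1) := by
      refine le_trans (Finset.sum_le_sum fun j _ => ?_) (geo_sum' l)
      have h2 := s_le hz (2 ^ j)
      push_cast at h2
      have h3 : ‖∑ i ∈ range (2 ^ j), z ^ i‖ ^ 2 ≤ (2 ^ j) ^ 2 :=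
        pow_le_pow_left₀ (norm_nonneg _) h2 2
      have h4 : (1 / (2 : ℝ) ^ j) * ‖∑ i ∈ range (2 ^ j), z ^ i‖ ^ 2 ≤ 2 ^ j := by
        rw [one_div, inv_mul_le_iff₀ (by positivity)]
        nlinarith
      calc (1 / (j : ℝ)) * ((1 / 2 ^ j) * ‖∑ i ∈ range (2 ^ j), z ^ i‖ ^ 2)
          ≤ (1 / (j : ℝ)) * 2 ^ j := mul_le_mul_of_nonneg_left h4 (by positivity)
        _ = _ := by ring
    have h2 : ∑ j ∈ Ioc l J, (1 / (j : ℝ)) * ((1 / 2 ^ j) * ‖∑ i ∈ range (2 ^ j), z ^ i‖ ^ 2) ≤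
        4 * 2 ^ l / ((l : ℝ) + 1) := by
      rcases hl2 with h3 | h3
      · rw [h3, Finset.Ioc_self, Finset.sum_empty]
        positivity
      · have h4 : ∀ j ∈ Ioc l J, (1 / (j : ℝ)) * ((1 / 2 ^ j) *
            ‖∑ i ∈ range (2 ^ j), z ^ i‖ ^ 2) ≤ 4 * 4 ^ l * ((1 / (j : ℝ)) * (1 / 2 ^ j)) := by
          intro j _
          have h5 := s_mul_le hz (2 ^ j)
          rw [← hu] at h5
          have hupos : 0 < u := by
            rcases hu0.eq_or_lt with h' | h'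
            · rw [← h', mul_zero] at h3
              linarith
            · exact h'
          have h6 : ‖∑ i ∈ range (2 ^ j), z ^ i‖ ≤ 2 * 2 ^ l := by
            by_contra hcon
            push Not at hcon
            have h7 : 2 * 2 ^ l * u < ‖∑ i ∈ range (2 ^ j), z ^ i‖ * u :=
              mul_lt_mul_of_pos_right hcon hupos
            rw [pow_succ] at h3
            nlinarith
          have h8 : ‖∑ i ∈ range (2 ^ j), z ^ i‖ ^ 2 ≤ 4 * 4 ^ l := by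
            calc _ ≤ (2 * 2 ^ l) ^ 2 := pow_le_pow_left₀ (norm_nonneg _) h6 2
              _ = 4 * 4 ^ l := by
                rw [mul_pow, ← pow_mul, mul_comm l 2, pow_mul]
                norm_num
          calc (1 / (j : ℝ)) * ((1 / 2 ^ j) * ‖∑ i ∈ range (2 ^ j), z ^ i‖ ^ 2)
              ≤ (1 / (j : ℝ)) * ((1 / 2 ^ j) * (4 * 4 ^ l)) := by gcongr
            _ = _ := by ring
        refine (Finset.sum_le_sum h4).trans ?_
        rw [← Finset.mul_sum]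
        refine (mul_le_mul_of_nonneg_left (tail_sum hlJ) (by positivity)).trans (le_of_eq ?_)
        have : (4 : ℝ) ^ l = 2 ^ l * 2 ^ l := by
          rw [← mul_pow]
          norm_num
        rw [this]
        field_simp
    have : 8 * 2 ^ l / ((l : ℝ) + 1) = 4 * 2 ^ l / ((l : ℝ) + 1) + 4 * 2 ^ l / ((l : ℝ) + 1) := by
      ring
    linarith
  have hnn : 0 ≤ ∑ j ∈ Icc 1 J, (1 / (j : ℝ)) * ((1 / 2 ^ j) *
      ‖∑ i ∈ range (2 ^ j), z ^ i‖ ^ 2) := Finset.sum_nonneg fun j _ => by positivity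
  have hmaj := maj_lower hz hlJ (by rw [← hu]; exact hl)
  calc _ ≤ (8 * 2 ^ l / ((l : ℝ) + 1)) ^ 2 := pow_le_pow_left₀ hnn hsum 2
    _ = 512 * ((4 : ℝ) ^ l / (8 * ((l : ℝ) + 1) ^ 2)) := by
      have : (4 : ℝ) ^ l = (2 ^ l) ^ 2 := by
        rw [← pow_mul, mul_comm, pow_mul]
        norm_num
      rw [this]
      field_simp
      norm_num
    _ ≤ _ := mul_le_mul_of_nonneg_left hmaj (by norm_num)

end Pool.Agent.R960.GI
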