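import Pool.Agent.R960.GI.Seq

/-! # Interpolation, normalized form: one term and blocks -/

set_option autoImplicit false

open Finset Filter

namespace Pool.Agent.R960.GI

/-- the interpolation weights -/
noncomputable def lam (J k : ℕ) : ℝ :=
  (∑ j ∈ Icc 1 J, 1 / (j : ℝ) * max 0 (1 - (k : ℝ) / 2 ^ j)) / ∑ j ∈ Icc 1 J, 1 / (j : ℝ)

lemma HH_pos {J : ℕ} (hJ : 1 ≤ J) : 0 < HH J := lt_of_lt_of_le one_pos (HH_one hJ)

lemma wt_right {J : ℕ} (hJ : 1 ≤ J) (i : ℕ) : wt J (2 ^ J - 1 + i) = HH J * lam J i := by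
  have h := HH_pos hJ
  have e : HH J * lam J i = ∑ j ∈ Icc 1 J, 1 / (j : ℝ) * max 0 (1 - (i : ℝ) / 2 ^ j) := by
    unfold lam
    change HH J * (_ / HH J) = _
    field_simp
  rw [e]
  unfold wt
  refine Finset.sum_congr rfl fun j _ => ?_
  have h1 : 1 ≤ 2 ^ J := Nat.one_le_two_pow
  have e2 : ((2 ^ J - 1 + i : ℕ) : ℝ) - (2 ^ J - 1) = i := by
    push_cast [h1]
    ring
  rw [e2, abs_of_nonneg (Nat.cast_nonneg i)]

lemma wt_left {J : ℕ} (hJ : 1 ≤ J) {i : ℕ} (hi : i ≤ 2 ^ J - 1) :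
    wt J (2 ^ J - 1 - i) = HH J * lam J i := by
  have h1 : 1 ≤ 2 ^ J := Nat.one_le_two_pow
  rw [← wt_right hJ i, ← wt_symm (k := 2 ^ J - 1 + i) (by omega)]
  congr 1
  omega

lemma lam_zero {J : ℕ} (hJ : 1 ≤ J) : lam J 0 = 1 := by
  have h := HH_pos hJ
  unfold lam
  have e : ∑ j ∈ Icc 1 J, 1 / (j : ℝ) * max 0 (1 - ((0 : ℕ) : ℝ) / 2 ^ j) = HH J := by
    unfold HH
    refine Finset.sum_congr rfl fun j _ => ?_
    simp
  rw [e]
  exact div_self h.ne'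

lemma lam_nonneg (J k : ℕ) : 0 ≤ lam J k := by
  unfold lam
  apply div_nonneg
  · exact Finset.sum_nonneg fun j _ => mul_nonneg (by positivity) (le_max_left _ _)
  · exact Finset.sum_nonneg fun j _ => by positivity

lemma lam_le_one (J k : ℕ) : lam J k ≤ 1 := by
  unfold lam
  apply div_le_one_of_le₀
  · refine Finset.sum_le_sum fun j _ => ?_
    have h1 : max 0 (1 - (k : ℝ) / 2 ^ j) ≤ 1 := by
      apply max_le (by norm_num)
      have : (0 : ℝ) ≤ (k : ℝ) / 2 ^ j := by positivity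
      linarith
    have h2 : (0 : ℝ) ≤ 1 / (j : ℝ) := by positivity
    nlinarith
  · exact Finset.sum_nonneg fun j _ => by positivity

lemma one_sub_lam {J : ℕ} (hJ : 1 ≤ J) (k : ℕ) : 1 - lam J k ≤ k / HH J := by
  have h := HH_pos hJ
  rw [le_div_iff₀ h]
  have e : (1 - lam J k) * HH J =
      ∑ j ∈ Icc 1 J, 1 / (j : ℝ) * (1 - max 0 (1 - (k : ℝ) / 2 ^ j)) := by
    have e1 : lam J k * HH J = ∑ j ∈ Icc 1 J, 1 / (j : ℝ) * max 0 (1 - (k : ℝ) / 2 ^ j) := by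
      unfold lam
      change (_ / HH J) * HH J = _
      field_simp
    rw [sub_mul, one_mul, e1]
    unfold HH
    rw [← Finset.sum_sub_distrib]
    exact Finset.sum_congr rfl fun j _ => by ring
  rw [e]
  have h2 : ∀ j ∈ Icc 1 J, 1 / (j : ℝ) * (1 - max 0 (1 - (k : ℝ) / 2 ^ j)) ≤ k * (1 / 2) ^ j := by
    intro j hj
    rw [Finset.mem_Icc] at hj
    have hj1 : (1 : ℝ) ≤ j := by exact_mod_cast hj.1
    have h3 : 1 - max 0 (1 - (k : ℝ) / 2 ^ j) ≤ (k : ℝ) / 2 ^ j := by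
      have := le_max_right 0 (1 - (k : ℝ) / 2 ^ j)
      linarith
    have h4 : 1 / (j : ℝ) ≤ 1 := by
      rw [div_le_one (by linarith)]
      exact hj1
    have h5 : (0 : ℝ) ≤ 1 / (j : ℝ) := by positivity
    have h6 : (0 : ℝ) ≤ (k : ℝ) / 2 ^ j := by positivity
    have e3 : (k : ℝ) * (1 / 2) ^ j = (k : ℝ) / 2 ^ j := by
      rw [one_div, inv_pow]
      ring
    rw [e3]
    nlinarith
  refine (Finset.sum_le_sum h2).trans ?_
  rw [← Finset.mul_sum]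
  have h3 : ∑ j ∈ Icc 1 J, (1 / 2 : ℝ) ^ j ≤ 1 := by
    have h4 : ∀ n : ℕ, ∑ j ∈ Icc 1 n, (1 / 2 : ℝ) ^ j = 1 - (1 / 2) ^ n := by
      intro n
      induction n with
      | zero => simp
      | succ n ih =>
        rw [Finset.sum_Icc_succ_top (by omega), ih]
        ring
    rw [h4]
    have : (0 : ℝ) ≤ (1 / 2) ^ J := by positivity
    linarith
  calc (k : ℝ) * ∑ j ∈ Icc 1 J, (1 / 2 : ℝ) ^ j ≤ k * 1 :=
        mul_le_mul_of_nonneg_left h3 (Nat.cast_nonneg k)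
    _ = k := mul_one _

lemma HH_log (J : ℕ) : Real.log (J + 1) ≤ HH J := by
  have h := log_add_one_le_harmonic J
  have e : ((harmonic J : ℚ) : ℝ) = HH J := by
    unfold HH
    rw [harmonic_eq_sum_Icc]
    push_cast
    exact Finset.sum_congr rfl fun j _ => by rw [one_div]
  rw [e] at h
  push_cast at h
  exact h

lemma sum_sym (K : ℕ) (f : ℕ → ℝ) : ∑ k ∈ range (2 * K + 1), f k =
    f K + ∑ i ∈ Ico 1 (K + 1), (f (K - i) + f (K + i)) := by
  have e1 : 2 * K + 1 = K + (K + 1) := by ring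
  rw [e1, Finset.sum_range_add, Finset.sum_range_succ' (fun x => f (K + x)) K,
    ← Finset.sum_range_reflect f K, Finset.sum_Ico_eq_sum_range]
  have e2 : K + 1 - 1 = K := by omega
  rw [e2, Finset.sum_add_distrib]
  have e3 : ∑ j ∈ range K, f (K - 1 - j) = ∑ k ∈ range K, f (K - (1 + k)) :=
    Finset.sum_congr rfl fun k _ => by congr 1; omega
  have e4 : ∑ j ∈ range K, f (K + (j + 1)) = ∑ k ∈ range K, f (K + (1 + k)) :=
    Finset.sum_congr rfl fun k _ => by congr 1; omega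
  rw [e3, e4, add_zero]
  ring

/-- the interpolation defect -/
noncomputable def defect (x : ℕ → ℝ) (J n : ℕ) : ℝ :=
  x n + ∑ k ∈ Ico 1 (2 ^ J), lam J k * (x (n - k) + x (n + k))

lemma sum_eq_defect (x : ℕ → ℝ) {J : ℕ} (hJ : 1 ≤ J) (n : ℕ) :
    ∑ k ∈ range (2 * 2 ^ J - 1), wt J k * x (n + k) = HH J * defect x J (n + (2 ^ J - 1)) := by
  have h1 : 1 ≤ 2 ^ J := Nat.one_le_two_pow
  have e1 : 2 * 2 ^ J - 1 = 2 * (2 ^ J - 1) + 1 := by omega
  have e2 : 2 ^ J - 1 + 1 = 2 ^ J := by omega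
  rw [e1, sum_sym, e2]
  unfold defect
  rw [mul_add, Finset.mul_sum]
  have e3 : wt J (2 ^ J - 1) = HH J := by
    have := wt_right hJ 0
    rw [add_zero, lam_zero hJ, mul_one] at this
    exact this
  rw [e3]
  congr 1
  refine Finset.sum_congr rfl fun k hk => ?_
  rw [Finset.mem_Ico] at hk
  rw [wt_left hJ (by omega), wt_right hJ]
  have e4 : n + (2 ^ J - 1) - k = n + (2 ^ J - 1 - k) := by omega
  have e5 : n + (2 ^ J - 1) + k = n + (2 ^ J - 1 + k) := by omega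
  rw [e4, e5]
  ring

/-- **interpolation of one term** -/
theorem one_term {x : ℕ → ℝ} {V : ℝ}
    (hg : ∃ C : ℝ, 0 < C ∧ ∀ n : ℕ, 1 ≤ n → |x n| ≤ C * (1 + Real.log n))
    (hv : ∀ m : ℕ, 1 ≤ m → ∀ᶠ N : ℕ in atTop,
      ∑ n ∈ Icc 1 N, (∑ i ∈ range m, x (n + i)) ^ 2 ≤ V * (1 + Real.log m) ^ 2 * N)
    {J : ℕ} (hJ : 1 ≤ J) : ∀ᶠ N : ℕ in atTop,
      ∑ n ∈ Icc (2 ^ J) N, defect x J n ^ 2 ≤ 98304 * (|V| + 1) / HH J * N := by
  have hH := HH_pos hJ
  filter_upwards [interp hg hv hJ] with N hN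
  have h1 : 1 ≤ 2 ^ J := Nat.one_le_two_pow
  have e1 : ∑ n ∈ Icc 1 N, (∑ k ∈ range (2 * 2 ^ J - 1), wt J k * x (n + k)) ^ 2 =
      HH J ^ 2 * ∑ n ∈ Icc 1 N, defect x J (n + (2 ^ J - 1)) ^ 2 := by
    rw [Finset.mul_sum]
    exact Finset.sum_congr rfl fun n _ => by rw [sum_eq_defect x hJ]; ring
  rw [e1] at hN
  have hinj : Set.InjOn (fun n => n + (2 ^ J - 1)) ↑(Icc 1 N) := by
    intro a _ b _ hab
    simp only at hab
    omega
  have e2 : ∑ n ∈ Icc 1 N, defect x J (n + (2 ^ J - 1)) ^ 2 =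
      ∑ n ∈ (Icc 1 N).image (fun n => n + (2 ^ J - 1)), defect x J n ^ 2 :=
    (Finset.sum_image (f := fun n => defect x J n ^ 2) hinj).symm
  have h2 : ∑ n ∈ Icc (2 ^ J) N, defect x J n ^ 2 ≤
      ∑ n ∈ Icc 1 N, defect x J (n + (2 ^ J - 1)) ^ 2 := by
    rw [e2]
    apply Finset.sum_le_sum_of_subset_of_nonneg
    · intro n hn
      rw [Finset.mem_Icc] at hn
      rw [Finset.mem_image]
      exact ⟨n - (2 ^ J - 1), Finset.mem_Icc.mpr (by omega), by omega⟩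
    · intro n _ _
      positivity
  refine h2.trans ?_
  have e3 : 98304 * (|V| + 1) * HH J * N = HH J ^ 2 * (98304 * (|V| + 1) / HH J * N) := by
    field_simp
  rw [e3] at hN
  exact le_of_mul_le_mul_left hN (by positivity)

/-- the block defect -/
noncomputable def bdef (x : ℕ → ℝ) (L J n : ℕ) : ℝ :=
  ∑ i ∈ range L, x (n + i) + ∑ k ∈ Ico 1 (2 ^ J), lam J k * x (n - k) +
    ∑ k ∈ Ico L (2 ^ J), lam J k * x (n + k)

lemma bdef_eq (x : ℕ → ℝ) {L J : ℕ} (hJ : 1 ≤ J) (hL : 1 ≤ L) (hLJ : L ≤ 2 ^ J) (n : ℕ) :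
    bdef x L J n = defect x J n + ∑ i ∈ range L, (1 - lam J i) * x (n + i) := by
  unfold bdef defect
  have e1 : ∑ k ∈ Ico 1 (2 ^ J), lam J k * (x (n - k) + x (n + k)) =
      ∑ k ∈ Ico 1 (2 ^ J), lam J k * x (n - k) + (∑ k ∈ Ico 1 L, lam J k * x (n + k) +
        ∑ k ∈ Ico L (2 ^ J), lam J k * x (n + k)) := by
    rw [Finset.sum_Ico_consecutive _ hL hLJ, ← Finset.sum_add_distrib]
    exact Finset.sum_congr rfl fun k _ => by ring
  have e2 : ∑ i ∈ range L, (1 - lam J i) * x (n + i) =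
      ∑ i ∈ range L, x (n + i) - (x n + ∑ k ∈ Ico 1 L, lam J k * x (n + k)) := by
    have e3 : ∑ i ∈ range L, lam J i * x (n + i) = x n + ∑ k ∈ Ico 1 L, lam J k * x (n + k) := by
      rw [Finset.range_eq_Ico, Finset.sum_eq_sum_Ico_succ_bot (by omega), lam_zero hJ, one_mul,
        add_zero]
    rw [← e3, ← Finset.sum_sub_distrib]
    exact Finset.sum_congr rfl fun k _ => by ring
  rw [e1, e2]
  ring

/-- **interpolation of blocks** -/
theorem block_term {x : ℕ → ℝ} {V : ℝ}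
    (hg : ∃ C : ℝ, 0 < C ∧ ∀ n : ℕ, 1 ≤ n → |x n| ≤ C * (1 + Real.log n))
    (hv : ∀ m : ℕ, 1 ≤ m → ∀ᶠ N : ℕ in atTop,
      ∑ n ∈ Icc 1 N, (∑ i ∈ range m, x (n + i)) ^ 2 ≤ V * (1 + Real.log m) ^ 2 * N)
    {L J : ℕ} (hJ : 1 ≤ J) (hL : 1 ≤ L) (hLJ : L ≤ 2 ^ J) : ∀ᶠ N : ℕ in atTop,
      ∑ n ∈ Icc (2 ^ J) N, bdef x L J n ^ 2 ≤ 400000 * (|V| + 1) * L ^ 4 / HH J * N := by
  have hH := HH_pos hJ
  have hH1 := HH_one hJ
  have hv1 := hv 1 le_rfl
  have hv2 : ∀ᶠ N : ℕ in atTop,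
      ∑ n ∈ Icc 1 (N + L), (∑ i ∈ range 1, x (n + i)) ^ 2 ≤
        V * (1 + Real.log ((1 : ℕ) : ℝ)) ^ 2 * ((N + L : ℕ) : ℝ) :=
    (tendsto_add_atTop_nat L).eventually hv1
  filter_upwards [one_term hg hv hJ, hv2, eventually_ge_atTop L] with N h1 h2 h3
  have h2' : ∑ n ∈ Icc 1 (N + L), x n ^ 2 ≤ 2 * (|V| * N) := by
    have e : ∑ n ∈ Icc 1 (N + L), (∑ i ∈ range 1, x (n + i)) ^ 2 = ∑ n ∈ Icc 1 (N + L), x n ^ 2 := by
      simp
    rw [e] at h2
    refine h2.trans ?_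
    have h4 : ((N + L : ℕ) : ℝ) ≤ 2 * N := by exact_mod_cast (by omega : N + L ≤ 2 * N)
    have h5 : (0 : ℝ) ≤ ((N + L : ℕ) : ℝ) := Nat.cast_nonneg _
    have h6 := le_abs_self V
    have h7 := abs_nonneg V
    simp only [Nat.cast_one, Real.log_one, add_zero, one_pow, mul_one]
    calc V * ((N + L : ℕ) : ℝ) ≤ |V| * ((N + L : ℕ) : ℝ) := mul_le_mul_of_nonneg_right h6 h5
      _ ≤ |V| * (2 * N) := mul_le_mul_of_nonneg_left h4 h7
      _ = _ := by ring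
  have hLr : (1 : ℝ) ≤ L := by exact_mod_cast hL
  have hpt : ∀ n, bdef x L J n ^ 2 ≤ 2 * defect x J n ^ 2 +
      2 * ((L : ℝ) * (L / HH J) ^ 2 * ∑ i ∈ range L, x (n + i) ^ 2) := by
    intro n
    rw [bdef_eq x hJ hL hLJ]
    have h4 : (∑ i ∈ range L, (1 - lam J i) * x (n + i)) ^ 2 ≤
        (L : ℝ) * (L / HH J) ^ 2 * ∑ i ∈ range L, x (n + i) ^ 2 := by
      have h5 := sq_sum_le_card_mul_sum_sq (s := range L) (f := fun i => (1 - lam J i) * x (n + i))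
      rw [Finset.card_range] at h5
      refine h5.trans ?_
      rw [mul_assoc]
      apply mul_le_mul_of_nonneg_left _ (by positivity)
      rw [Finset.mul_sum]
      refine Finset.sum_le_sum fun i hi => ?_
      rw [Finset.mem_range] at hi
      rw [mul_pow]
      apply mul_le_mul_of_nonneg_right _ (sq_nonneg _)
      have h6 := one_sub_lam hJ i
      have h7 := lam_le_one J i
      have h8 : (i : ℝ) / HH J ≤ L / HH J := by
        apply div_le_div_of_nonneg_right _ hH.le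
        exact_mod_cast hi.le
      exact pow_le_pow_left₀ (by linarith) (h6.trans h8) 2
    nlinarith [sq_nonneg (defect x J n - ∑ i ∈ range L, (1 - lam J i) * x (n + i))]
  have hsq : ∑ n ∈ Icc (2 ^ J) N, ∑ i ∈ range L, x (n + i) ^ 2 ≤ L * (2 * (|V| * N)) := by
    rw [Finset.sum_comm]
    have h4 : ∀ i ∈ range L, ∑ n ∈ Icc (2 ^ J) N, x (n + i) ^ 2 ≤ 2 * (|V| * N) := by
      intro i hi
      rw [Finset.mem_range] at hi
      refine le_trans ?_ h2'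
      have hinj : Set.InjOn (fun n => n + i) ↑(Icc (2 ^ J) N) := by
        intro a _ b _ hab
        simp only at hab
        omega
      have e2 : ∑ n ∈ Icc (2 ^ J) N, x (n + i) ^ 2 =
          ∑ n ∈ (Icc (2 ^ J) N).image (fun n => n + i), x n ^ 2 :=
        (Finset.sum_image (f := fun n => x n ^ 2) hinj).symm
      rw [e2]
      apply Finset.sum_le_sum_of_subset_of_nonneg
      · intro n hn
        rw [Finset.mem_image] at hn
        obtain ⟨m, hm, rfl⟩ := hn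
        rw [Finset.mem_Icc] at hm ⊢
        have : 1 ≤ 2 ^ J := Nat.one_le_two_pow
        omega
      · intro n _ _
        positivity
    refine (Finset.sum_le_sum h4).trans (le_of_eq ?_)
    rw [Finset.sum_const, Finset.card_range, nsmul_eq_mul]
  have hsum : ∑ n ∈ Icc (2 ^ J) N, bdef x L J n ^ 2 ≤ 2 * ∑ n ∈ Icc (2 ^ J) N, defect x J n ^ 2 +
      2 * ((L : ℝ) * (L / HH J) ^ 2 * ∑ n ∈ Icc (2 ^ J) N, ∑ i ∈ range L, x (n + i) ^ 2) := by
    rw [Finset.mul_sum, Finset.mul_sum, Finset.mul_sum, ← Finset.sum_add_distrib]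
    exact Finset.sum_le_sum fun n _ => hpt n
  refine hsum.trans ?_
  have hN0 : (0 : ℝ) ≤ N := Nat.cast_nonneg N
  have h9 := abs_nonneg V
  have e5 : 2 * (98304 * (|V| + 1) / HH J * (N : ℝ)) ≤ 200000 * (|V| + 1) * L ^ 4 / HH J * N := by
    have h10 : (1 : ℝ) ≤ (L : ℝ) ^ 4 := one_le_pow₀ hLr
    have e6 : 2 * (98304 * (|V| + 1) / HH J * (N : ℝ)) = 196608 * ((|V| + 1) / HH J * N) := by ring
    have e7 : 200000 * (|V| + 1) * (L : ℝ) ^ 4 / HH J * N =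
        200000 * (L : ℝ) ^ 4 * ((|V| + 1) / HH J * N) := by ring
    rw [e6, e7]
    apply mul_le_mul_of_nonneg_right _ (by positivity)
    linarith
  have e8 : 2 * ((L : ℝ) * (L / HH J) ^ 2 * (L * (2 * (|V| * N)))) ≤
      200000 * (|V| + 1) * L ^ 4 / HH J * N := by
    have e9 : 2 * ((L : ℝ) * (L / HH J) ^ 2 * (L * (2 * (|V| * N)))) =
        4 * |V| * (1 / HH J) * ((L : ℝ) ^ 4 / HH J * N) := by
      field_simp
      ring
    have e10 : 200000 * (|V| + 1) * (L : ℝ) ^ 4 / HH J * N =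
        200000 * (|V| + 1) * ((L : ℝ) ^ 4 / HH J * N) := by ring
    rw [e9, e10]
    apply mul_le_mul_of_nonneg_right _ (by positivity)
    have h11 : 1 / HH J ≤ 1 := by
      rw [div_le_one hH]
      exact hH1
    have h12 : 0 ≤ 1 / HH J := by positivity
    nlinarith
  have e11 : 2 * ((L : ℝ) * (L / HH J) ^ 2 *
      ∑ n ∈ Icc (2 ^ J) N, ∑ i ∈ range L, x (n + i) ^ 2) ≤
      2 * ((L : ℝ) * (L / HH J) ^ 2 * (L * (2 * (|V| * N)))) := by
    apply mul_le_mul_of_nonneg_left _ (by norm_num)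
    exact mul_le_mul_of_nonneg_left hsq (by positivity)
  have e12 : 400000 * (|V| + 1) * (L : ℝ) ^ 4 / HH J * N =
      200000 * (|V| + 1) * L ^ 4 / HH J * N + 200000 * (|V| + 1) * L ^ 4 / HH J * N := by ring
  rw [e12]
  linarith

end Pool.Agent.R960.GI
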