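import Mathlib

/-! # Parseval's identity on roots of unity, and transfer of inequalities to coefficients -/

set_option autoImplicit false

open Finset Polynomial

namespace Pool.Agent.R960.GI

/-- the root of unity -/
noncomputable def ze (L : ℕ) : ℂ := Complex.exp (2 * Real.pi * Complex.I / L)

lemma ze_prim {L : ℕ} (hL : 0 < L) : IsPrimitiveRoot (ze L) L :=
  Complex.isPrimitiveRoot_exp L hL.ne'

lemma ze_norm {L : ℕ} (hL : 0 < L) (j : ℕ) : ‖ze L ^ j‖ = 1 := by
  rw [norm_pow, (ze_prim hL).norm'_eq_one hL.ne', one_pow]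

lemma conj_eq_inv {z : ℂ} (hz : ‖z‖ = 1) : (starRingEnd ℂ) z = z⁻¹ := by
  rw [Complex.inv_def, Complex.normSq_eq_norm_sq, hz]
  simp

lemma root_sum {L : ℕ} (hL : 0 < L) {a b : ℕ} (ha : a < L) (hb : b < L) :
    ∑ j ∈ range L, (ze L ^ j) ^ a * (starRingEnd ℂ) ((ze L ^ j) ^ b) =
      if a = b then (L : ℂ) else 0 := by
  have hp := ze_prim hL
  have hne : ze L ≠ 0 := hp.ne_zero hL.ne'
  have e1 : ∀ j ∈ range L, (ze L ^ j) ^ a * (starRingEnd ℂ) ((ze L ^ j) ^ b) =
      (ze L ^ a * (ze L ^ b)⁻¹) ^ j := by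
    intro j _
    have h1 : ‖(ze L ^ j) ^ b‖ = 1 := by rw [norm_pow, ze_norm hL, one_pow]
    rw [conj_eq_inv h1, mul_pow, inv_pow, ← pow_mul, ← pow_mul, ← pow_mul, ← pow_mul,
      mul_comm j a, mul_comm j b]
  rw [Finset.sum_congr rfl e1]
  split_ifs with hab
  · subst hab
    have : ze L ^ a * (ze L ^ a)⁻¹ = 1 := mul_inv_cancel₀ (pow_ne_zero _ hne)
    rw [this]
    simp
  · have hy1 : ze L ^ a * (ze L ^ b)⁻¹ ≠ 1 := by
      intro h
      have h2 : ze L ^ a = ze L ^ b := by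
        have h3 := congrArg (· * ze L ^ b) h
        simp only [one_mul] at h3
        rwa [mul_assoc, inv_mul_cancel₀ (pow_ne_zero _ hne), mul_one] at h3
      exact hab (hp.pow_inj ha hb h2)
    have hyL : (ze L ^ a * (ze L ^ b)⁻¹) ^ L = 1 := by
      rw [mul_pow, inv_pow, ← pow_mul, ← pow_mul, mul_comm a L, mul_comm b L, pow_mul, pow_mul,
        hp.pow_eq_one, one_pow, one_pow, inv_one, mul_one]
    have h4 := geom_sum_mul (ze L ^ a * (ze L ^ b)⁻¹) L
    rw [hyL, sub_self] at h4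
    rcases mul_eq_zero.mp h4 with h5 | h5
    · exact h5
    · exact absurd (sub_eq_zero.mp h5) hy1

/-- Parseval -/
lemma parseval {L : ℕ} (g : ℝ[X]) (hg : g.natDegree < L) :
    ∑ j ∈ range L, ‖aeval (ze L ^ j) g‖ ^ 2 = L * ∑ n ∈ range L, g.coeff n ^ 2 := by
  have hL : 0 < L := by omega
  have key : ((∑ j ∈ range L, ‖aeval (ze L ^ j) g‖ ^ 2 : ℝ) : ℂ) =
      ((L * ∑ n ∈ range L, g.coeff n ^ 2 : ℝ) : ℂ) := by
    push_cast
    have e1 : ∀ j ∈ range L, ((‖aeval (ze L ^ j) g‖ : ℂ)) ^ 2 =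
        ∑ a ∈ range L, ∑ b ∈ range L, (g.coeff a : ℂ) * (g.coeff b : ℂ) *
          ((ze L ^ j) ^ a * (starRingEnd ℂ) ((ze L ^ j) ^ b)) := by
      intro j _
      rw [← Complex.mul_conj', aeval_eq_sum_range' hg, map_sum, Finset.sum_mul_sum]
      refine Finset.sum_congr rfl fun a _ => Finset.sum_congr rfl fun b _ => ?_
      rw [Complex.real_smul, Complex.real_smul, map_mul, Complex.conj_ofReal]
      ring
    rw [Finset.sum_congr rfl e1, Finset.sum_comm]
    have e2 : ∀ a ∈ range L, ∑ j ∈ range L, ∑ b ∈ range L, (g.coeff a : ℂ) * (g.coeff b : ℂ) *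
          ((ze L ^ j) ^ a * (starRingEnd ℂ) ((ze L ^ j) ^ b)) = L * (g.coeff a : ℂ) ^ 2 := by
      intro a ha
      rw [Finset.sum_comm]
      have e3 : ∀ b ∈ range L, ∑ j ∈ range L, (g.coeff a : ℂ) * (g.coeff b : ℂ) *
          ((ze L ^ j) ^ a * (starRingEnd ℂ) ((ze L ^ j) ^ b)) =
          if a = b then L * (g.coeff a : ℂ) ^ 2 else 0 := by
        intro b hb
        rw [← Finset.mul_sum, root_sum hL (Finset.mem_range.mp ha) (Finset.mem_range.mp hb)]
        split_ifs with h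
        · subst h; ring
        · rw [mul_zero]
      rw [Finset.sum_congr rfl e3, Finset.sum_ite_eq, if_pos ha]
    rw [Finset.sum_congr rfl e2, Finset.mul_sum]
  exact_mod_cast key

/-- the geometric sum -/
noncomputable def gs (m : ℕ) : ℝ[X] := ∑ i ∈ range m, X ^ i

lemma gs_eval (m : ℕ) (z : ℂ) : aeval z (gs m) = ∑ i ∈ range m, z ^ i := by
  unfold gs
  simp

lemma gs_deg (m : ℕ) : (gs m).natDegree ≤ m := by
  unfold gs
  apply natDegree_sum_le_of_forall_le
  intro i hi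
  rw [natDegree_X_pow]
  exact (Finset.mem_range.mp hi).le

lemma gs_coeff_mul (m : ℕ) (f : ℝ[X]) (n : ℕ) :
    (gs m * f).coeff n = ∑ i ∈ range m, if i ≤ n then f.coeff (n - i) else 0 := by
  unfold gs
  rw [Finset.sum_mul, finsetSum_coeff]
  exact Finset.sum_congr rfl fun i _ => coeff_X_pow_mul' f i n

end Pool.Agent.R960.GI
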