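import Pool.Agent.R960.GI.Trans

/-! # Interpolation of sequences whose partial sums have small variance -/

set_option autoImplicit false

open Finset Polynomial Filter

namespace Pool.Agent.R960.GI

/-- the truncated generating polynomial -/
noncomputable def fp (x : ℕ → ℝ) (N : ℕ) : ℝ[X] := ∑ n ∈ Icc 1 N, C (x n) * X ^ n

lemma fp_coeff (x : ℕ → ℝ) (N n : ℕ) : (fp x N).coeff n = if 1 ≤ n ∧ n ≤ N then x n else 0 := by
  unfold fp
  rw [finsetSum_coeff]
  simp only [coeff_C_mul_X_pow]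
  by_cases h : 1 ≤ n ∧ n ≤ N
  · rw [if_pos h, Finset.sum_ite_eq, if_pos (Finset.mem_Icc.mpr h)]
  · rw [if_neg h]
    apply Finset.sum_eq_zero
    intro i hi
    rw [Finset.mem_Icc] at hi
    rw [if_neg]
    intro h2
    subst h2
    exact h hi

lemma fp_deg (x : ℕ → ℝ) (N : ℕ) : (fp x N).natDegree ≤ N := by
  unfold fp
  apply natDegree_sum_le_of_forall_le
  intro i hi
  rw [Finset.mem_Icc] at hi
  exact (natDegree_C_mul_X_pow_le _ _).trans hi.2

/-- sums of `m` consecutive terms of the truncated sequence -/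
lemma gs_fp (x : ℕ → ℝ) {N m L : ℕ} {B V : ℝ} (hm : 1 ≤ m) (hB : ∀ n, 1 ≤ n → n ≤ N → |x n| ≤ B)
    (hB0 : 0 ≤ B) (hV : ∑ n ∈ Icc 1 N, (∑ i ∈ range m, x (n + i)) ^ 2 ≤ V) :
    ∑ n ∈ range L, (gs m * fp x N).coeff n ^ 2 ≤ V + 2 * m * (m * B) ^ 2 := by
  classical
  have hc : ∀ n, (gs m * fp x N).coeff n =
      ∑ i ∈ range m, if i ≤ n then (if 1 ≤ n - i ∧ n - i ≤ N then x (n - i) else 0) else 0 := by
    intro n
    rw [gs_coeff_mul]
    simp only [fp_coeff]
  have hbd : ∀ n, |(gs m * fp x N).coeff n| ≤ m * B := by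
    intro n
    rw [hc]
    refine (Finset.abs_sum_le_sum_abs _ _).trans ?_
    have : ∀ i ∈ range m,
        |if i ≤ n then (if 1 ≤ n - i ∧ n - i ≤ N then x (n - i) else 0) else 0| ≤ B := by
      intro i _
      split_ifs with h1 h2
      · exact hB _ h2.1 h2.2
      · rw [abs_zero]; exact hB0
      · rw [abs_zero]; exact hB0
    refine (Finset.sum_le_sum this).trans ?_
    rw [Finset.sum_const, Finset.card_range, nsmul_eq_mul]
  obtain ⟨D, hD⟩ : ∃ D, D = (m * B) ^ 2 := ⟨_, rfl⟩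
  have hD0 : 0 ≤ D := by rw [hD]; positivity
  have hbd2 : ∀ n, (gs m * fp x N).coeff n ^ 2 ≤ D := by
    intro n
    rw [hD, ← sq_abs]
    exact pow_le_pow_left₀ (abs_nonneg _) (hbd n) 2
  have hzero : ∀ n, N + m ≤ n → (gs m * fp x N).coeff n = 0 := by
    intro n hn
    rw [hc]
    apply Finset.sum_eq_zero
    intro i hi
    rw [Finset.mem_range] at hi
    rw [if_pos (by omega), if_neg (by omega)]
  obtain ⟨G, hG⟩ : ∃ G : ℕ → ℝ, G = fun n => (∑ i ∈ range m, x (n + i)) ^ 2 := ⟨_, rfl⟩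
  have hG0 : ∀ n, 0 ≤ G n := fun n => by rw [hG]; positivity
  have hin : ∀ n, m ≤ n → n ≤ N → (gs m * fp x N).coeff n ^ 2 = G (n + 1 - m) := by
    intro n h1 h2
    rw [hc, ← Finset.sum_range_reflect, hG]
    congr 1
    refine Finset.sum_congr rfl fun i hi => ?_
    rw [Finset.mem_range] at hi
    rw [if_pos (by omega), if_pos (by omega)]
    congr 1
    omega
  have hpt : ∀ n ∈ range L, (gs m * fp x N).coeff n ^ 2 ≤
      (if m ≤ n ∧ n ≤ N then G (n + 1 - m) else 0) +
        ((if n < m then D else 0) + (if N < n ∧ n < N + m then D else 0)) := by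
    intro n _
    by_cases h1 : m ≤ n ∧ n ≤ N
    · rw [if_pos h1, hin n h1.1 h1.2]
      have : 0 ≤ (if n < m then D else 0) + (if N < n ∧ n < N + m then D else 0) := by
        split_ifs <;> linarith
      linarith
    · rw [if_neg h1, zero_add]
      by_cases h2 : n < m
      · rw [if_pos h2]
        have h3 := hbd2 n
        have : 0 ≤ (if N < n ∧ n < N + m then D else 0) := by
          split_ifs <;> linarith
        linarith
      · rw [if_neg h2, zero_add]
        by_cases h4 : N < n ∧ n < N + m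
        · rw [if_pos h4]
          exact hbd2 n
        · rw [if_neg h4, hzero n (by omega)]
          norm_num
  refine (Finset.sum_le_sum hpt).trans ?_
  rw [Finset.sum_add_distrib, Finset.sum_add_distrib]
  have s1 : ∑ n ∈ range L, (if m ≤ n ∧ n ≤ N then G (n + 1 - m) else 0) ≤ V := by
    refine le_trans ?_ hV
    rw [← Finset.sum_filter]
    have hinj : Set.InjOn (fun n => n + 1 - m) ↑((range L).filter (fun n => m ≤ n ∧ n ≤ N)) := by
      intro a ha b hb hab
      rw [Finset.mem_coe, Finset.mem_filter] at ha hb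
      simp only at hab
      omega
    have e1 : ∑ n ∈ (range L).filter (fun n => m ≤ n ∧ n ≤ N), G (n + 1 - m) =
        ∑ k ∈ ((range L).filter (fun n => m ≤ n ∧ n ≤ N)).image (fun n => n + 1 - m), G k :=
      (Finset.sum_image (f := G) hinj).symm
    rw [e1]
    have e2 : ∑ n ∈ Icc 1 N, (∑ i ∈ range m, x (n + i)) ^ 2 = ∑ n ∈ Icc 1 N, G n := by
      rw [hG]
    rw [e2]
    apply Finset.sum_le_sum_of_subset_of_nonneg
    · intro k hk
      rw [Finset.mem_image] at hk
      obtain ⟨n, hn, rfl⟩ := hk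
      rw [Finset.mem_filter] at hn
      rw [Finset.mem_Icc]
      omega
    · intro k _ _
      exact hG0 k
  have s2 : ∑ n ∈ range L, (if n < m then D else 0) ≤ m * D := by
    rw [← Finset.sum_filter, Finset.sum_const, nsmul_eq_mul]
    apply mul_le_mul_of_nonneg_right _ hD0
    have : ((range L).filter (fun n => n < m)).card ≤ (range m).card := by
      apply Finset.card_le_card
      intro n hn
      rw [Finset.mem_filter] at hn
      exact Finset.mem_range.mpr hn.2
    rw [Finset.card_range] at this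
    exact_mod_cast this
  have s3 : ∑ n ∈ range L, (if N < n ∧ n < N + m then D else 0) ≤ m * D := by
    rw [← Finset.sum_filter, Finset.sum_const, nsmul_eq_mul]
    apply mul_le_mul_of_nonneg_right _ hD0
    have : ((range L).filter (fun n => N < n ∧ n < N + m)).card ≤ (Ico N (N + m)).card := by
      apply Finset.card_le_card
      intro n hn
      rw [Finset.mem_filter] at hn
      rw [Finset.mem_Ico]
      omega
    rw [Nat.card_Ico] at this
    have h5 : N + m - N = m := by omega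
    rw [h5] at this
    exact_mod_cast this
  rw [← hD]
  linarith

lemma log_small (c : ℝ) : ∀ᶠ N : ℕ in atTop, c * (1 + Real.log N) ^ 2 ≤ N := by
  have h1 : Tendsto (fun x : ℝ => (1 + Real.log x) ^ 2 / x) atTop (nhds 0) := by
    have h2 : Tendsto (fun x : ℝ => 1 / x) atTop (nhds 0) := by
      simpa using tendsto_inv_atTop_zero
    have h3 : Tendsto (fun x : ℝ => Real.log x ^ 1 / x) atTop (nhds 0) := by
      have := Real.tendsto_pow_log_div_mul_add_atTop 1 0 1 one_ne_zero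
      simpa using this
    have h4 : Tendsto (fun x : ℝ => Real.log x ^ 2 / x) atTop (nhds 0) := by
      have := Real.tendsto_pow_log_div_mul_add_atTop 1 0 2 one_ne_zero
      simpa using this
    have h5 := (h2.add (h3.const_mul 2)).add h4
    simp only [mul_zero, add_zero] at h5
    refine h5.congr fun x => ?_
    ring
  have h2 := (h1.comp tendsto_natCast_atTop_atTop).const_mul |c|
  rw [mul_zero] at h2
  filter_upwards [h2.eventually_lt_const one_pos, eventually_gt_atTop 0] with N h3 h4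
  have hN : (0 : ℝ) < N := by exact_mod_cast h4
  simp only [Function.comp_apply] at h3
  rw [← mul_div_assoc, div_lt_iff₀ hN, one_mul] at h3
  have h5 : c * (1 + Real.log N) ^ 2 ≤ |c| * (1 + Real.log N) ^ 2 :=
    mul_le_mul_of_nonneg_right (le_abs_self c) (sq_nonneg _)
  linarith

lemma HH_one {J : ℕ} (hJ : 1 ≤ J) : 1 ≤ HH J := by
  unfold HH
  calc (1 : ℝ) = 1 / ((1 : ℕ) : ℝ) := by norm_num
    _ ≤ ∑ j ∈ Icc 1 J, 1 / (j : ℝ) :=
      Finset.single_le_sum (f := fun j : ℕ => 1 / (j : ℝ)) (fun j _ => by positivity)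
        (Finset.mem_Icc.mpr ⟨le_rfl, hJ⟩)

/-- **interpolation, the main inequality** -/
theorem interp {x : ℕ → ℝ} {V : ℝ} (hg : ∃ C : ℝ, 0 < C ∧ ∀ n : ℕ, 1 ≤ n → |x n| ≤ C * (1 + Real.log n))
    (hv : ∀ m : ℕ, 1 ≤ m → ∀ᶠ N : ℕ in atTop,
      ∑ n ∈ Icc 1 N, (∑ i ∈ range m, x (n + i)) ^ 2 ≤ V * (1 + Real.log m) ^ 2 * N)
    {J : ℕ} (hJ : 1 ≤ J) : ∀ᶠ N : ℕ in atTop,
      ∑ n ∈ Icc 1 N, (∑ k ∈ range (2 * 2 ^ J - 1), wt J k * x (n + k)) ^ 2 ≤
        98304 * (|V| + 1) * HH J * N := by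
  obtain ⟨C, hC, hCx⟩ := hg
  obtain ⟨K2, hK2⟩ : ∃ K2, K2 = 2 * 2 ^ J - 2 := ⟨_, rfl⟩
  have hJ2 : 2 ≤ 2 ^ J := by
    calc 2 = 2 ^ 1 := rfl
      _ ≤ 2 ^ J := Nat.pow_le_pow_right (by norm_num) hJ
  obtain ⟨M0, hM0⟩ : ∃ M0, M0 = 16 * 2 ^ J := ⟨_, rfl⟩
  -- eventual conditions, in terms of `N + K2`
  have ev1 : ∀ᶠ N : ℕ in atTop, ∀ m ∈ Icc 1 M0,
      ∑ n ∈ Icc 1 N, (∑ i ∈ range m, x (n + i)) ^ 2 ≤ V * (1 + Real.log m) ^ 2 * N := by
    rw [Filter.eventually_all_finset]
    intro m hm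
    exact hv m (Finset.mem_Icc.mp hm).1
  have ev2 := log_small (2 * (M0 : ℝ) ^ 3 * C ^ 2)
  have hsh : Tendsto (fun N : ℕ => N + K2) atTop atTop := tendsto_add_atTop_nat K2
  filter_upwards [hsh.eventually ev1, hsh.eventually ev2, eventually_ge_atTop (K2 + 1)]
    with N h1 h2 h3
  obtain ⟨N', hN'⟩ : ∃ N', N' = N + K2 := ⟨_, rfl⟩
  rw [← hN'] at h1 h2
  have hN1 : 1 ≤ N' := by omega
  have hN'r : (1 : ℝ) ≤ N' := by exact_mod_cast hN1
  have hN'2 : (N' : ℝ) ≤ 2 * N := by
    have : N' ≤ 2 * N := by omega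
    exact_mod_cast this
  have hlogN : 0 ≤ Real.log N' := Real.log_natCast_nonneg N'
  obtain ⟨A, hA⟩ : ∃ A, A = |V| + 1 := ⟨_, rfl⟩
  have hA0 : 0 ≤ A := by rw [hA]; positivity
  obtain ⟨L, hL⟩ : ∃ L, L = N' + 16 * 2 ^ J + 1 := ⟨_, rfl⟩
  have hfd := fp_deg x N'
  have key := trans J (fp x N') L (by omega) (fun m => (A * N') * (1 + Real.log m) ^ 2) (by
    intro m hm1 hm2
    have g1 := gs_fp x (N := N') (m := m) (L := L) (B := C * (1 + Real.log N')) hm1 (by
      intro n hn1 hn2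
      refine (hCx n hn1).trans ?_
      have : Real.log n ≤ Real.log N' :=
        Real.log_le_log (by exact_mod_cast hn1) (by exact_mod_cast hn2)
      gcongr) (by positivity) (h1 m (Finset.mem_Icc.mpr ⟨hm1, by omega⟩))
    refine g1.trans ?_
    have hm1r : (1 : ℝ) ≤ m := by exact_mod_cast hm1
    have hmM : (m : ℝ) ≤ M0 := by exact_mod_cast (by omega : m ≤ M0)
    have g2 : 2 * (m : ℝ) * (m * (C * (1 + Real.log N'))) ^ 2 ≤ N' := by
      refine le_trans ?_ h2
      have : (m : ℝ) ^ 3 ≤ (M0 : ℝ) ^ 3 := pow_le_pow_left₀ (by linarith) hmM 3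
      calc 2 * (m : ℝ) * (m * (C * (1 + Real.log N'))) ^ 2
          = 2 * (m : ℝ) ^ 3 * C ^ 2 * (1 + Real.log N') ^ 2 := by ring
        _ ≤ 2 * (M0 : ℝ) ^ 3 * C ^ 2 * (1 + Real.log N') ^ 2 := by gcongr
    have hlm : 0 ≤ Real.log m := Real.log_nonneg hm1r
    have g3 : (1 : ℝ) ≤ (1 + Real.log m) ^ 2 := one_le_pow₀ (by linarith)
    have g4 : V * (1 + Real.log m) ^ 2 * N' ≤ |V| * (1 + Real.log m) ^ 2 * N' := by
      have := le_abs_self V
      gcongr
    have g5 : (N' : ℝ) ≤ (1 + Real.log m) ^ 2 * N' := le_mul_of_one_le_left (by linarith) g3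
    rw [hA]
    calc V * (1 + Real.log m) ^ 2 * N' + 2 * (m : ℝ) * (m * (C * (1 + Real.log N'))) ^ 2
        ≤ |V| * (1 + Real.log m) ^ 2 * N' + (1 + Real.log m) ^ 2 * N' := by linarith
      _ = _ := by ring)
  have hmaj := MajS_log hJ (A := A * N') (by positivity)
  -- the coefficients
  have hcoef : ∀ n ∈ Icc 1 N, ∑ k ∈ range (2 * 2 ^ J - 1), wt J k * x (n + k) =
      (Pk J * fp x N').coeff (n + K2) := by
    intro n hn
    rw [Finset.mem_Icc] at hn
    rw [coeff_mul, Finset.Nat.sum_antidiagonal_eq_sum_range_succ_mk]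
    have e1 : ∑ k ∈ range (n + K2).succ, (Pk J).coeff k * (fp x N').coeff (n + K2 - k) =
        ∑ k ∈ range (K2 + 1), wt J k * x (n + K2 - k) := by
      have hsub : range (K2 + 1) ⊆ range (n + K2).succ := by
        intro k hk
        rw [Finset.mem_range] at hk ⊢
        omega
      rw [← Finset.sum_subset hsub]
      · refine Finset.sum_congr rfl fun k hk => ?_
        rw [Finset.mem_range] at hk
        rw [Pk_coeff, fp_coeff, if_pos (by omega)]
      · intro k _ hk
        rw [Finset.mem_range] at hk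
        rw [Pk_coeff, wt_zero (by omega), zero_mul]
    simp only
    rw [e1, ← Finset.sum_range_reflect]
    have e2 : 2 * 2 ^ J - 1 = K2 + 1 := by omega
    rw [e2]
    refine Finset.sum_congr rfl fun k hk => ?_
    rw [Finset.mem_range] at hk
    have e3 : K2 + 1 - 1 - k = 2 * 2 ^ J - 2 - k := by omega
    rw [e3, wt_symm (by omega)]
    congr 2
    omega
  have hle : ∑ n ∈ Icc 1 N, (∑ k ∈ range (2 * 2 ^ J - 1), wt J k * x (n + k)) ^ 2 ≤
      ∑ n ∈ range L, (Pk J * fp x N').coeff n ^ 2 := by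
    have e1 : ∑ n ∈ Icc 1 N, (∑ k ∈ range (2 * 2 ^ J - 1), wt J k * x (n + k)) ^ 2 =
        ∑ n ∈ Icc 1 N, (Pk J * fp x N').coeff (n + K2) ^ 2 :=
      Finset.sum_congr rfl fun n hn => by rw [hcoef n hn]
    have hinj : Set.InjOn (fun n => n + K2) ↑(Icc 1 N) := by
      intro a _ b _ hab
      simp only at hab
      omega
    have e2 : ∑ n ∈ Icc 1 N, (Pk J * fp x N').coeff (n + K2) ^ 2 =
        ∑ n ∈ (Icc 1 N).image (fun n => n + K2), (Pk J * fp x N').coeff n ^ 2 :=
      (Finset.sum_image (f := fun n => (Pk J * fp x N').coeff n ^ 2) hinj).symm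
    rw [e1, e2]
    apply Finset.sum_le_sum_of_subset_of_nonneg
    · intro k hk
      rw [Finset.mem_image] at hk
      obtain ⟨n, hn, rfl⟩ := hk
      rw [Finset.mem_Icc] at hn
      rw [Finset.mem_range]
      omega
    · intro k _ _
      positivity
  have hHH := HH_one hJ
  rw [← hA]
  calc _ ≤ 512 * MajS J (fun m => (A * N') * (1 + Real.log m) ^ 2) := hle.trans key
    _ ≤ 512 * (96 * (A * N') * HH J) := mul_le_mul_of_nonneg_left hmaj (by norm_num)
    _ = 49152 * A * HH J * N' := by ring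
    _ ≤ 49152 * A * HH J * (2 * N) := mul_le_mul_of_nonneg_left hN'2 (by positivity)
    _ = _ := by ring

end Pool.Agent.R960.GI
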