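import Pool.Agent.R960.GI.Kern

/-! # The kernel and the transfer of the kernel inequality to sequences -/

set_option autoImplicit false

open Finset Polynomial

namespace Pool.Agent.R960.GI

lemma BB_mono (j : ℕ) {Φ Ψ : ℕ → ℝ} (h : ∀ m, 1 ≤ m → m ≤ 16 * 2 ^ j → Φ m ≤ Ψ m) :
    BB j Φ ≤ BB j Ψ := by
  unfold BB
  have h2 : 1 ≤ 2 ^ j := Nat.one_le_two_pow
  have h1 : Φ (2 ^ j) ≤ Ψ (2 ^ j) := h _ h2 (by omega)
  have h3 : ∑ m ∈ Ico (8 * 2 ^ j) (2 * (8 * 2 ^ j)), Φ m ≤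
      ∑ m ∈ Ico (8 * 2 ^ j) (2 * (8 * 2 ^ j)), Ψ m := by
    refine Finset.sum_le_sum fun m hm => ?_
    rw [Finset.mem_Ico] at hm
    exact h m (by omega) (by omega)
  have h4 := mul_le_mul_of_nonneg_left h3 (show (0 : ℝ) ≤ 1 / (8 * 2 ^ j) by positivity)
  linarith

lemma MajS_mono (J : ℕ) {Φ Ψ : ℕ → ℝ} (h : ∀ m, 1 ≤ m → m ≤ 16 * 2 ^ J → Φ m ≤ Ψ m) :
    MajS J Φ ≤ MajS J Ψ := by
  unfold MajS
  apply add_le_add
  · refine Finset.sum_le_sum fun j hj => ?_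
    apply mul_le_mul_of_nonneg_left _ (by positivity)
    apply BB_mono
    intro m h1 h2
    have h3 : 2 ^ j ≤ 2 ^ J := Nat.pow_le_pow_right (by norm_num) (Finset.mem_range.mp hj).le
    exact h m h1 (by omega)
  · exact mul_le_mul_of_nonneg_left (BB_mono J h) (by positivity)

lemma BB_sum {ι : Type*} (s : Finset ι) (w : ι → ℝ) (Φ : ι → ℕ → ℝ) (j : ℕ) :
    ∑ i ∈ s, w i * BB j (Φ i) = BB j (fun m => ∑ i ∈ s, w i * Φ i m) := by
  unfold BB
  simp only [mul_add, Finset.sum_add_distrib]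
  congr 1
  · rw [Finset.mul_sum]
    exact Finset.sum_congr rfl fun i _ => by ring
  · rw [Finset.sum_comm, Finset.mul_sum]
    exact Finset.sum_congr rfl fun i _ => by
      rw [Finset.mul_sum, Finset.mul_sum, Finset.mul_sum]
      exact Finset.sum_congr rfl fun m _ => by ring

lemma MajS_sum {ι : Type*} (s : Finset ι) (w : ι → ℝ) (Φ : ι → ℕ → ℝ) (J : ℕ) :
    ∑ i ∈ s, w i * MajS J (Φ i) = MajS J (fun m => ∑ i ∈ s, w i * Φ i m) := by
  unfold MajS
  simp only [mul_add, Finset.sum_add_distrib, ← BB_sum]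
  congr 1
  · simp only [Finset.mul_sum]
    rw [Finset.sum_comm]
    exact Finset.sum_congr rfl fun i _ => Finset.sum_congr rfl fun j _ => by ring
  · rw [Finset.mul_sum]
    exact Finset.sum_congr rfl fun i _ => by ring

lemma MajS_smul (J : ℕ) (c : ℝ) (Φ : ℕ → ℝ) : MajS J (fun m => c * Φ m) = c * MajS J Φ := by
  have := MajS_sum ({()} : Finset Unit) (fun _ => c) (fun _ => Φ) J
  simp only [Finset.sum_singleton] at this
  exact this.symm

/-- the kernel as a polynomial -/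
noncomputable def Pk (J : ℕ) : ℝ[X] :=
  ∑ j ∈ Icc 1 J, C (1 / (j : ℝ)) * (C (1 / 2 ^ j : ℝ) * (X ^ (2 ^ J - 2 ^ j) * gs (2 ^ j) ^ 2))

lemma Pk_eval {z : ℂ} (hz : ‖z‖ = 1) (J : ℕ) : ‖aeval z (Pk J)‖ ≤
    ∑ j ∈ Icc 1 J, (1 / (j : ℝ)) * ((1 / 2 ^ j) * ‖∑ i ∈ range (2 ^ j), z ^ i‖ ^ 2) := by
  unfold Pk
  rw [map_sum]
  refine (norm_sum_le _ _).trans (Finset.sum_le_sum fun j _ => le_of_eq ?_)
  rw [map_mul, map_mul, map_mul, map_pow, map_pow, aeval_X, aeval_C, aeval_C, gs_eval, norm_mul,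
    norm_mul, norm_mul, norm_pow, norm_pow, hz, one_pow, one_mul]
  congr 1
  · simp
  · congr 1
    simp

lemma Pk_deg (J : ℕ) : (Pk J).natDegree ≤ 2 * 2 ^ J := by
  unfold Pk
  apply natDegree_sum_le_of_forall_le
  intro j hj
  rw [Finset.mem_Icc] at hj
  have h3 : 2 ^ j ≤ 2 ^ J := Nat.pow_le_pow_right (by norm_num) hj.2
  refine (natDegree_C_mul_le _ _).trans ((natDegree_C_mul_le _ _).trans ?_)
  refine natDegree_mul_le.trans ?_
  rw [natDegree_X_pow]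
  have h4 : (gs (2 ^ j) ^ 2).natDegree ≤ 2 * 2 ^ j :=
    natDegree_pow_le.trans (Nat.mul_le_mul_left _ (gs_deg _))
  omega

/-- **transfer** -/
theorem trans (J : ℕ) (f : ℝ[X]) (L : ℕ) (hL : f.natDegree + 16 * 2 ^ J < L) (Ψ : ℕ → ℝ)
    (h : ∀ m, 1 ≤ m → m ≤ 16 * 2 ^ J → ∑ n ∈ range L, (gs m * f).coeff n ^ 2 ≤ Ψ m) :
    ∑ n ∈ range L, (Pk J * f).coeff n ^ 2 ≤ 512 * MajS J Ψ := by
  have hLpos : 0 < L := by omega
  have hLr : (0 : ℝ) < L := by exact_mod_cast hLpos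
  have h1 : (Pk J * f).natDegree < L := by
    have := Pk_deg J
    have h2 : (Pk J * f).natDegree ≤ (Pk J).natDegree + f.natDegree := natDegree_mul_le
    omega
  have h3 : ∀ m, m ≤ 16 * 2 ^ J → (gs m * f).natDegree < L := by
    intro m hm
    have := gs_deg m
    have h2 : (gs m * f).natDegree ≤ (gs m).natDegree + f.natDegree := natDegree_mul_le
    omega
  have h4 := parseval (Pk J * f) h1
  have h5 : ∑ j ∈ range L, ‖aeval (ze L ^ j) (Pk J * f)‖ ^ 2 ≤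
      512 * (L * MajS J Ψ) := by
    have h6 : ∀ j ∈ range L, ‖aeval (ze L ^ j) (Pk J * f)‖ ^ 2 ≤
        ‖aeval (ze L ^ j) f‖ ^ 2 * MajS J (fun m => 512 * ‖∑ i ∈ range m, (ze L ^ j) ^ i‖ ^ 2) := by
      intro j _
      have hz := ze_norm hLpos j
      rw [map_mul, norm_mul, mul_pow, MajS_smul, mul_comm]
      apply mul_le_mul_of_nonneg_left _ (by positivity)
      refine le_trans ?_ (kern hz J)
      exact pow_le_pow_left₀ (norm_nonneg _) (Pk_eval hz J) 2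
    refine (Finset.sum_le_sum h6).trans ?_
    rw [MajS_sum]
    have h7 : MajS J (fun m => ∑ j ∈ range L, ‖aeval (ze L ^ j) f‖ ^ 2 *
        (512 * ‖∑ i ∈ range m, (ze L ^ j) ^ i‖ ^ 2)) ≤ MajS J (fun m => (512 * L) * Ψ m) := by
      apply MajS_mono
      intro m hm1 hm2
      have h8 := parseval (gs m * f) (h3 m hm2)
      have h9 := h m hm1 hm2
      have e1 : ∑ j ∈ range L, ‖aeval (ze L ^ j) f‖ ^ 2 *
          (512 * ‖∑ i ∈ range m, (ze L ^ j) ^ i‖ ^ 2) =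
          512 * ∑ j ∈ range L, ‖aeval (ze L ^ j) (gs m * f)‖ ^ 2 := by
        rw [Finset.mul_sum]
        refine Finset.sum_congr rfl fun j _ => ?_
        rw [map_mul, norm_mul, gs_eval]
        ring
      rw [e1, h8]
      have := mul_le_mul_of_nonneg_left h9 hLr.le
      linarith
    refine h7.trans (le_of_eq ?_)
    rw [MajS_smul]
    ring
  rw [h4] at h5
  have h10 : (L : ℝ) * ∑ n ∈ range L, (Pk J * f).coeff n ^ 2 ≤ L * (512 * MajS J Ψ) := by linarith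
  exact le_of_mul_le_mul_left h10 hLr

/-- the harmonic sum -/
noncomputable def HH (J : ℕ) : ℝ := ∑ j ∈ Icc 1 J, 1 / (j : ℝ)

lemma log_bd {j m : ℕ} (h1 : 1 ≤ m) (h2 : m ≤ 16 * 2 ^ j) :
    (1 + Real.log m) ^ 2 ≤ 16 * ((j : ℝ) + 1) ^ 2 := by
  have hm : (0 : ℝ) < m := by exact_mod_cast h1
  have h3 : (m : ℝ) ≤ 16 * 2 ^ j := by exact_mod_cast h2
  have h4 := Real.log_le_log hm h3
  have h5 : Real.log (16 * 2 ^ j) = (4 + j) * Real.log 2 := by
    rw [Real.log_mul (by norm_num) (by positivity), Real.log_pow,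
      show (16 : ℝ) = 2 ^ 4 by norm_num, Real.log_pow]
    push_cast
    ring
  have h6 : Real.log 2 < 0.6931471808 := Real.log_two_lt_d9
  have hj : (0 : ℝ) ≤ j := Nat.cast_nonneg j
  have h7 : 0 ≤ Real.log m := Real.log_nonneg (by exact_mod_cast h1)
  have h8 : 1 + Real.log m ≤ 4 * ((j : ℝ) + 1) := by
    rw [h5] at h4
    nlinarith
  calc (1 + Real.log m) ^ 2 ≤ (4 * ((j : ℝ) + 1)) ^ 2 := pow_le_pow_left₀ (by linarith) h8 2
    _ = _ := by ring

lemma BB_log (j : ℕ) {A : ℝ} (hA : 0 ≤ A) :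
    BB j (fun m => A * (1 + Real.log m) ^ 2) ≤ 48 * A * ((j : ℝ) + 1) ^ 2 := by
  have h1 : BB j (fun m => A * (1 + Real.log m) ^ 2) ≤
      BB j (fun _ => A * (16 * ((j : ℝ) + 1) ^ 2)) :=
    BB_mono j fun m h1 h2 => mul_le_mul_of_nonneg_left (log_bd h1 h2) hA
  refine h1.trans (le_of_eq ?_)
  unfold BB
  rw [Finset.sum_const, Nat.card_Ico, nsmul_eq_mul]
  have e : 2 * (8 * 2 ^ j) - 8 * 2 ^ j = 8 * 2 ^ j := by omega
  rw [e]
  push_cast
  field_simp
  ring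

lemma MajS_log {J : ℕ} (hJ : 1 ≤ J) {A : ℝ} (hA : 0 ≤ A) :
    MajS J (fun m => A * (1 + Real.log m) ^ 2) ≤ 96 * A * HH J := by
  have h1 : 1 ≤ HH J := by
    unfold HH
    have h2 : (1 : ℝ) = 1 / ((1 : ℕ) : ℝ) := by norm_num
    calc (1 : ℝ) = 1 / ((1 : ℕ) : ℝ) := h2
      _ ≤ ∑ j ∈ Icc 1 J, 1 / (j : ℝ) :=
        Finset.single_le_sum (f := fun j : ℕ => 1 / (j : ℝ)) (fun j _ => by positivity)
          (Finset.mem_Icc.mpr ⟨le_rfl, hJ⟩)
  have h2 : ∑ j ∈ range J, 1 / ((j : ℝ) + 1) = HH J := by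
    unfold HH
    have e : Icc 1 J = Ico (0 + 1) (J + 1) := by
      ext j
      simp only [Finset.mem_Icc, Finset.mem_Ico]
      omega
    rw [e, ← Finset.sum_Ico_add' (fun j : ℕ => 1 / (j : ℝ)) 0 J 1, Finset.range_eq_Ico]
    exact Finset.sum_congr rfl fun j _ => by push_cast; ring
  unfold MajS
  have h3 : ∑ j ∈ range J, (1 / ((j : ℝ) + 1) ^ 3) * BB j (fun m => A * (1 + Real.log m) ^ 2) ≤
      48 * A * HH J := by
    rw [← h2, Finset.mul_sum]
    refine Finset.sum_le_sum fun j _ => ?_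
    calc (1 / ((j : ℝ) + 1) ^ 3) * BB j (fun m => A * (1 + Real.log m) ^ 2)
        ≤ (1 / ((j : ℝ) + 1) ^ 3) * (48 * A * ((j : ℝ) + 1) ^ 2) :=
          mul_le_mul_of_nonneg_left (BB_log j hA) (by positivity)
      _ = _ := by field_simp
  have h4 : (1 / ((J : ℝ) + 1) ^ 2) * BB J (fun m => A * (1 + Real.log m) ^ 2) ≤ 48 * A := by
    calc (1 / ((J : ℝ) + 1) ^ 2) * BB J (fun m => A * (1 + Real.log m) ^ 2)
        ≤ (1 / ((J : ℝ) + 1) ^ 2) * (48 * A * ((J : ℝ) + 1) ^ 2) :=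
          mul_le_mul_of_nonneg_left (BB_log J hA) (by positivity)
      _ = _ := by field_simp
  have h5 : 48 * A ≤ 48 * A * HH J := le_mul_of_one_le_right (by positivity) h1
  linarith

/-! ### The coefficients of the kernel -/

/-- the weights -/
noncomputable def wt (J n : ℕ) : ℝ :=
  ∑ j ∈ Icc 1 J, 1 / (j : ℝ) * max 0 (1 - |(n : ℝ) - (2 ^ J - 1)| / 2 ^ j)

lemma gs_coeff (m n : ℕ) : (gs m).coeff n = if n < m then 1 else 0 := by
  unfold gs
  rw [finsetSum_coeff]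
  simp only [coeff_X_pow]
  by_cases h : n < m
  · rw [if_pos h]
    rw [Finset.sum_ite_eq]
    rw [if_pos (Finset.mem_range.mpr h)]
  · rw [if_neg h]
    apply Finset.sum_eq_zero
    intro i hi
    rw [Finset.mem_range] at hi
    rw [if_neg (by omega)]

lemma tent (m n : ℕ) (hm : 1 ≤ m) :
    (gs m ^ 2).coeff n = max 0 ((m : ℝ) - |(n : ℝ) - ((m : ℝ) - 1)|) := by
  rw [_root_.sq, gs_coeff_mul]
  simp only [gs_coeff]
  have e1 : ∑ i ∈ range m, (if i ≤ n then (if n - i < m then (1 : ℝ) else 0) else 0) =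
      ((Ico (n + 1 - m) (min m (n + 1))).card : ℝ) := by
    have e2 : ∀ i ∈ range m, (if i ≤ n then (if n - i < m then (1 : ℝ) else 0) else 0) =
        if i ∈ Ico (n + 1 - m) (min m (n + 1)) then 1 else 0 := by
      intro i hi
      rw [Finset.mem_range] at hi
      rw [← ite_and]
      congr 1
      rw [Finset.mem_Ico]
      apply propext
      omega
    rw [Finset.sum_congr rfl e2, Finset.sum_boole]
    congr 2
    ext i
    simp only [Finset.mem_filter, Finset.mem_range, Finset.mem_Ico]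
    omega
  rw [e1, Nat.card_Ico]
  rcases le_or_gt (n + 1) m with h | h
  · have h2 : min m (n + 1) - (n + 1 - m) = n + 1 := by omega
    rw [h2]
    have h3 : (n : ℝ) + 1 ≤ m := by exact_mod_cast h
    rw [abs_of_nonpos (by linarith), max_eq_right (by
      have : (0 : ℝ) ≤ n := Nat.cast_nonneg n
      linarith)]
    push_cast
    ring
  · have h3 : (m : ℝ) ≤ n := by exact_mod_cast (by omega : m ≤ n)
    rw [abs_of_nonneg (by linarith)]
    rcases le_or_gt n (2 * m - 1) with h4 | h4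
    · have h2 : min m (n + 1) - (n + 1 - m) + n + 1 = 2 * m := by omega
      have h5 : ((min m (n + 1) - (n + 1 - m) : ℕ) : ℝ) + n + 1 = 2 * m := by exact_mod_cast h2
      have h6 : (0 : ℝ) ≤ ((min m (n + 1) - (n + 1 - m) : ℕ) : ℝ) := Nat.cast_nonneg _
      rw [max_eq_right (by linarith)]
      linarith
    · have h2 : min m (n + 1) - (n + 1 - m) = 0 := by omega
      have h5 : (2 : ℝ) * m ≤ n := by exact_mod_cast (by omega : 2 * m ≤ n)
      rw [h2, max_eq_left (by linarith)]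
      simp

lemma Pk_coeff (J n : ℕ) : (Pk J).coeff n = wt J n := by
  unfold Pk wt
  rw [finsetSum_coeff]
  refine Finset.sum_congr rfl fun j hj => ?_
  rw [Finset.mem_Icc] at hj
  have h1 : 1 ≤ 2 ^ j := Nat.one_le_two_pow
  have h2 : 2 ^ j ≤ 2 ^ J := Nat.pow_le_pow_right (by norm_num) hj.2
  have h2r : (2 : ℝ) ^ j ≤ 2 ^ J := pow_le_pow_right₀ (by norm_num) hj.2
  have h2p : (0 : ℝ) < 2 ^ j := by positivity
  rw [coeff_C_mul, coeff_C_mul, coeff_X_pow_mul']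
  congr 1
  have e : max 0 (1 - |(n : ℝ) - (2 ^ J - 1)| / 2 ^ j) =
      1 / 2 ^ j * max 0 ((2 : ℝ) ^ j - |(n : ℝ) - (2 ^ J - 1)|) := by
    rw [mul_max_of_nonneg _ _ (by positivity), mul_zero]
    congr 1
    field_simp
  rw [e]
  congr 1
  split_ifs with h3
  · have h4 : ((n - (2 ^ J - 2 ^ j) : ℕ) : ℝ) = n - (2 ^ J - 2 ^ j) := by
      rw [Nat.cast_sub h3, Nat.cast_sub h2]
      push_cast
      ring
    have h5 : (n : ℝ) - (2 ^ J - 2 ^ j) - (2 ^ j - 1) = n - (2 ^ J - 1) := by ring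
    rw [tent _ _ h1, h4, Nat.cast_pow, Nat.cast_ofNat, h5]
  · push Not at h3
    symm
    apply max_eq_left
    have h4 : n + 2 ^ j + 1 ≤ 2 ^ J := by omega
    have h5 : (n : ℝ) + 2 ^ j + 1 ≤ 2 ^ J := by exact_mod_cast h4
    rw [abs_of_nonpos (by linarith)]
    linarith

lemma wt_zero {J n : ℕ} (h : 2 * 2 ^ J - 1 ≤ n) : wt J n = 0 := by
  unfold wt
  apply Finset.sum_eq_zero
  intro j hj
  rw [Finset.mem_Icc] at hj
  have h1 : 1 ≤ 2 ^ J := Nat.one_le_two_pow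
  have h2r : (2 : ℝ) ^ j ≤ 2 ^ J := pow_le_pow_right₀ (by norm_num) hj.2
  have h2p : (0 : ℝ) < 2 ^ j := by positivity
  have h4 : 2 * 2 ^ J ≤ n + 1 := by omega
  have h5 : (2 : ℝ) * 2 ^ J ≤ n + 1 := by exact_mod_cast h4
  rw [max_eq_left, mul_zero]
  rw [abs_of_nonneg (by linarith)]
  rw [sub_nonpos, le_div_iff₀ h2p]
  linarith

lemma wt_symm {J k : ℕ} (h : k ≤ 2 * 2 ^ J - 2) : wt J (2 * 2 ^ J - 2 - k) = wt J k := by
  unfold wt
  have h1 : 1 ≤ 2 ^ J := Nat.one_le_two_pow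
  have e : ((2 * 2 ^ J - 2 - k : ℕ) : ℝ) = 2 * 2 ^ J - 2 - k := by
    rw [Nat.cast_sub h, Nat.cast_sub (by omega)]
    push_cast
    ring
  rw [e]
  refine Finset.sum_congr rfl fun j _ => ?_
  have e2 : |(2 : ℝ) * 2 ^ J - 2 - k - (2 ^ J - 1)| = |(k : ℝ) - (2 ^ J - 1)| := by
    rw [← abs_neg]
    congr 1
    ring
  rw [e2]

end Pool.Agent.R960.GI
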