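import Pool.Agent.R960.GI.Norm

/-! # The kernel with uniform weights: finite interpolation inequality -/

set_option autoImplicit false

open Finset Polynomial

namespace Pool.Agent.R960.GI.Uni

lemma geo (l : ℕ) : ∑ j ∈ Icc 1 l, (2 : ℝ) ^ j ≤ 2 * 2 ^ l := by
  induction l with
  | zero => simp
  | succ l ih =>
    rw [Finset.sum_Icc_succ_top (by omega), pow_succ]
    linarith

lemma tail {l J : ℕ} (h : l ≤ J) : ∑ j ∈ Ioc l J, (1 / (2 : ℝ) ^ j) ≤ 1 / 2 ^ l := by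
  have h2 : ∑ j ∈ Ioc l J, (1 / (2 : ℝ) ^ j) ≤ 1 / 2 ^ l - 1 / 2 ^ J := by
    induction J, h using Nat.le_induction with
    | base => simp
    | succ J hJ ih =>
      rw [Finset.sum_Ioc_succ_top hJ]
      have e : (1 : ℝ) / 2 ^ J = 1 / 2 ^ (J + 1) + 1 / 2 ^ (J + 1) := by
        rw [pow_succ]
        field_simp
        norm_num
      linarith
  have h3 : (0 : ℝ) ≤ 1 / 2 ^ J := by positivity
  linarith

/-- the kernel inequality, uniform weights -/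
theorem kern {z : ℂ} (hz : ‖z‖ = 1) (J : ℕ) :
    (∑ j ∈ Icc 1 J, (1 / 2 ^ j) * ‖∑ i ∈ range (2 ^ j), z ^ i‖ ^ 2) ^ 2 ≤
      144 * BB J (fun m => ‖∑ i ∈ range m, z ^ i‖ ^ 2) := by
  classical
  obtain ⟨u, hu⟩ : ∃ u, u = ‖1 - z‖ := ⟨_, rfl⟩
  have hu0 : 0 ≤ u := by rw [hu]; exact norm_nonneg _
  have hu2 : u ≤ 2 := by
    rw [hu]
    refine (norm_sub_le _ _).trans ?_
    rw [norm_one, hz]
    norm_num
  obtain ⟨l, hlJ, hl, hl2⟩ : ∃ l, l ≤ J ∧ 2 ^ l * u ≤ 2 ∧ (l = J ∨ 2 < 2 ^ (l + 1) * u) := by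
    have hne : ((range (J + 1)).filter (fun l => (2 : ℝ) ^ l * u ≤ 2)).Nonempty := by
      refine ⟨0, ?_⟩
      rw [Finset.mem_filter]
      refine ⟨Finset.mem_range.mpr (by omega), by simpa using hu2⟩
    obtain ⟨l, hl⟩ : ∃ l, l = ((range (J + 1)).filter (fun l => (2 : ℝ) ^ l * u ≤ 2)).max' hne :=
      ⟨_, rfl⟩
    have h1 := Finset.max'_mem _ hne
    rw [← hl, Finset.mem_filter, Finset.mem_range] at h1
    refine ⟨l, by omega, h1.2, ?_⟩
    by_cases h2 : l = J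
    · exact Or.inl h2
    · right
      by_contra hcon
      push Not at hcon
      have h3 : l + 1 ∈ (range (J + 1)).filter (fun l => (2 : ℝ) ^ l * u ≤ 2) := by
        rw [Finset.mem_filter, Finset.mem_range]
        exact ⟨by omega, hcon⟩
      have h4 := Finset.le_max' _ _ h3
      omega
  have h2l : (0 : ℝ) < 2 ^ l := by positivity
  have hsum : ∑ j ∈ Icc 1 J, (1 / 2 ^ j) * ‖∑ i ∈ range (2 ^ j), z ^ i‖ ^ 2 ≤ 6 * 2 ^ l := by
    have hsplit : Icc 1 J = Icc 1 l ∪ Ioc l J := by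
      ext j
      simp only [Finset.mem_union, Finset.mem_Icc, Finset.mem_Ioc]
      omega
    have hdisj : Disjoint (Icc 1 l) (Ioc l J) := by
      rw [Finset.disjoint_left]
      intro j h1 h2
      rw [Finset.mem_Icc] at h1
      rw [Finset.mem_Ioc] at h2
      omega
    rw [hsplit, Finset.sum_union hdisj]
    have h1 : ∑ j ∈ Icc 1 l, (1 / 2 ^ j) * ‖∑ i ∈ range (2 ^ j), z ^ i‖ ^ 2 ≤ 2 * 2 ^ l := by
      refine le_trans (Finset.sum_le_sum fun j _ => ?_) (geo l)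
      have h2 := s_le hz (2 ^ j)
      push_cast at h2
      have h3 : ‖∑ i ∈ range (2 ^ j), z ^ i‖ ^ 2 ≤ (2 ^ j) ^ 2 :=
        pow_le_pow_left₀ (norm_nonneg _) h2 2
      rw [one_div, inv_mul_le_iff₀ (by positivity)]
      nlinarith
    have h2 : ∑ j ∈ Ioc l J, (1 / 2 ^ j) * ‖∑ i ∈ range (2 ^ j), z ^ i‖ ^ 2 ≤ 4 * 2 ^ l := by
      rcases hl2 with h3 | h3
      · rw [h3, Finset.Ioc_self, Finset.sum_empty]
        positivity
      · have h4 : ∀ j ∈ Ioc l J, (1 / 2 ^ j) *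
            ‖∑ i ∈ range (2 ^ j), z ^ i‖ ^ 2 ≤ 4 * 4 ^ l * (1 / (2 : ℝ) ^ j) := by
          intro j _
          have h5 := s_mul_le hz (2 ^ j)
          rw [← hu] at h5
          have hupos : 0 < u := by
            rcases hu0.eq_or_lt with h' | h'
            · rw [← h', mul_zero] at h3
              linarith
            · exact h'
          have h6 : ‖∑ i ∈ range (2 ^ j), z ^ i‖ ≤ 2 * 2 ^ l := by
            by_contra hcon
            push Not at hcon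
            have h7 : 2 * 2 ^ l * u < ‖∑ i ∈ range (2 ^ j), z ^ i‖ * u :=
              mul_lt_mul_of_pos_right hcon hupos
            rw [pow_succ] at h3
            nlinarith
          have h8 : ‖∑ i ∈ range (2 ^ j), z ^ i‖ ^ 2 ≤ 4 * 4 ^ l := by
            calc _ ≤ (2 * 2 ^ l) ^ 2 := pow_le_pow_left₀ (norm_nonneg _) h6 2
              _ = 4 * 4 ^ l := by
                rw [mul_pow, ← pow_mul, mul_comm l 2, pow_mul]
                norm_num
          calc (1 / 2 ^ j) * ‖∑ i ∈ range (2 ^ j), z ^ i‖ ^ 2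
              ≤ (1 / 2 ^ j) * (4 * 4 ^ l) := by gcongr
            _ = _ := by ring
        refine (Finset.sum_le_sum h4).trans ?_
        rw [← Finset.mul_sum]
        refine (mul_le_mul_of_nonneg_left (tail hlJ) (by positivity)).trans (le_of_eq ?_)
        have : (4 : ℝ) ^ l = 2 ^ l * 2 ^ l := by
          rw [← mul_pow]
          norm_num
        rw [this]
        field_simp
    linarith
  have hnn : 0 ≤ ∑ j ∈ Icc 1 J, (1 / 2 ^ j) *
      ‖∑ i ∈ range (2 ^ j), z ^ i‖ ^ 2 := Finset.sum_nonneg fun j _ => by positivity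
  have hmaj := BB_lower hz hlJ (by rw [← hu]; exact hl)
  calc _ ≤ (6 * 2 ^ l) ^ 2 := pow_le_pow_left₀ hnn hsum 2
    _ = 144 * ((4 : ℝ) ^ l / 4) := by
      have : (4 : ℝ) ^ l = (2 ^ l) ^ 2 := by
        rw [← pow_mul, mul_comm, pow_mul]
        norm_num
      rw [this]
      ring
    _ ≤ _ := mul_le_mul_of_nonneg_left hmaj (by norm_num)

lemma BB_smul (J : ℕ) (c : ℝ) (Φ : ℕ → ℝ) : BB J (fun m => c * Φ m) = c * BB J Φ := by
  have := BB_sum ({()} : Finset Unit) (fun _ => c) (fun _ => Φ) J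
  simp only [Finset.sum_singleton] at this
  exact this.symm

/-- the kernel as a polynomial -/
noncomputable def Pk (J : ℕ) : ℝ[X] :=
  ∑ j ∈ Icc 1 J, C (1 / 2 ^ j : ℝ) * (X ^ (2 ^ J - 2 ^ j) * gs (2 ^ j) ^ 2)

lemma Pk_eval {z : ℂ} (hz : ‖z‖ = 1) (J : ℕ) : ‖aeval z (Pk J)‖ ≤
    ∑ j ∈ Icc 1 J, (1 / 2 ^ j) * ‖∑ i ∈ range (2 ^ j), z ^ i‖ ^ 2 := by
  unfold Pk
  rw [map_sum]
  refine (norm_sum_le _ _).trans (Finset.sum_le_sum fun j _ => le_of_eq ?_)
  rw [map_mul, map_mul, map_pow, map_pow, aeval_X, aeval_C, gs_eval, norm_mul,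
    norm_mul, norm_pow, norm_pow, hz, one_pow, one_mul]
  congr 1
  simp

lemma Pk_deg (J : ℕ) : (Pk J).natDegree ≤ 2 * 2 ^ J := by
  unfold Pk
  apply natDegree_sum_le_of_forall_le
  intro j hj
  rw [Finset.mem_Icc] at hj
  have h3 : 2 ^ j ≤ 2 ^ J := Nat.pow_le_pow_right (by norm_num) hj.2
  refine (natDegree_C_mul_le _ _).trans ?_
  refine natDegree_mul_le.trans ?_
  rw [natDegree_X_pow]
  have h4 : (gs (2 ^ j) ^ 2).natDegree ≤ 2 * 2 ^ j :=
    natDegree_pow_le.trans (Nat.mul_le_mul_left _ (gs_deg _))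
  omega

/-- **transfer** -/
theorem trans (J : ℕ) (f : ℝ[X]) (L : ℕ) (hL : f.natDegree + 16 * 2 ^ J < L) (Ψ : ℕ → ℝ)
    (h : ∀ m, 1 ≤ m → m ≤ 16 * 2 ^ J → ∑ n ∈ range L, (gs m * f).coeff n ^ 2 ≤ Ψ m) :
    ∑ n ∈ range L, (Pk J * f).coeff n ^ 2 ≤ 144 * BB J Ψ := by
  have hLpos : 0 < L := by omega
  have hLr : (0 : ℝ) < L := by exact_mod_cast hLpos
  have h1 : (Pk J * f).natDegree < L := by
    have := Pk_deg J
    have h2 : (Pk J * f).natDegree ≤ (Pk J).natDegree + f.natDegree := natDegree_mul_le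
    omega
  have h3 : ∀ m, m ≤ 16 * 2 ^ J → (gs m * f).natDegree < L := by
    intro m hm
    have := gs_deg m
    have h2 : (gs m * f).natDegree ≤ (gs m).natDegree + f.natDegree := natDegree_mul_le
    omega
  have h4 := parseval (Pk J * f) h1
  have h5 : ∑ j ∈ range L, ‖aeval (ze L ^ j) (Pk J * f)‖ ^ 2 ≤
      144 * (L * BB J Ψ) := by
    have h6 : ∀ j ∈ range L, ‖aeval (ze L ^ j) (Pk J * f)‖ ^ 2 ≤
        ‖aeval (ze L ^ j) f‖ ^ 2 * BB J (fun m => 144 * ‖∑ i ∈ range m, (ze L ^ j) ^ i‖ ^ 2) := by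
      intro j _
      have hz := ze_norm hLpos j
      rw [map_mul, norm_mul, mul_pow, BB_smul, mul_comm]
      apply mul_le_mul_of_nonneg_left _ (by positivity)
      refine le_trans ?_ (kern hz J)
      exact pow_le_pow_left₀ (norm_nonneg _) (Pk_eval hz J) 2
    refine (Finset.sum_le_sum h6).trans ?_
    rw [BB_sum]
    have h7 : BB J (fun m => ∑ j ∈ range L, ‖aeval (ze L ^ j) f‖ ^ 2 *
        (144 * ‖∑ i ∈ range m, (ze L ^ j) ^ i‖ ^ 2)) ≤ BB J (fun m => (144 * L) * Ψ m) := by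
      apply BB_mono
      intro m hm1 hm2
      have h8 := parseval (gs m * f) (h3 m hm2)
      have h9 := h m hm1 hm2
      have e1 : ∑ j ∈ range L, ‖aeval (ze L ^ j) f‖ ^ 2 *
          (144 * ‖∑ i ∈ range m, (ze L ^ j) ^ i‖ ^ 2) =
          144 * ∑ j ∈ range L, ‖aeval (ze L ^ j) (gs m * f)‖ ^ 2 := by
        rw [Finset.mul_sum]
        refine Finset.sum_congr rfl fun j _ => ?_
        rw [map_mul, norm_mul, gs_eval]
        ring
      rw [e1, h8]
      have := mul_le_mul_of_nonneg_left h9 hLr.le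
      linarith
    refine h7.trans (le_of_eq ?_)
    rw [BB_smul]
    ring
  rw [h4] at h5
  have h10 : (L : ℝ) * ∑ n ∈ range L, (Pk J * f).coeff n ^ 2 ≤ L * (144 * BB J Ψ) := by linarith
  exact le_of_mul_le_mul_left h10 hLr

/-- the weights -/
noncomputable def wt (J n : ℕ) : ℝ :=
  ∑ j ∈ Icc 1 J, max 0 (1 - |(n : ℝ) - (2 ^ J - 1)| / 2 ^ j)

lemma Pk_coeff (J n : ℕ) : (Pk J).coeff n = wt J n := by
  unfold Pk wt
  rw [finsetSum_coeff]
  refine Finset.sum_congr rfl fun j hj => ?_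
  rw [Finset.mem_Icc] at hj
  have h1 : 1 ≤ 2 ^ j := Nat.one_le_two_pow
  have h2 : 2 ^ j ≤ 2 ^ J := Nat.pow_le_pow_right (by norm_num) hj.2
  have h2r : (2 : ℝ) ^ j ≤ 2 ^ J := pow_le_pow_right₀ (by norm_num) hj.2
  have h2p : (0 : ℝ) < 2 ^ j := by positivity
  rw [coeff_C_mul, coeff_X_pow_mul']
  have e : max 0 (1 - |(n : ℝ) - (2 ^ J - 1)| / 2 ^ j) =
      1 / 2 ^ j * max 0 ((2 : ℝ) ^ j - |(n : ℝ) - (2 ^ J - 1)|) := by
    rw [mul_max_of_nonneg _ _ (by positivity), mul_zero]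
    congr 1
    field_simp
  rw [e]
  congr 1
  split_ifs with h3
  · have h4 : ((n - (2 ^ J - 2 ^ j) : ℕ) : ℝ) = n - (2 ^ J - 2 ^ j) := by
      rw [Nat.cast_sub h3, Nat.cast_sub h2]
      push_cast
      ring
    have h5 : (n : ℝ) - (2 ^ J - 2 ^ j) - (2 ^ j - 1) = n - (2 ^ J - 1) := by ring
    rw [tent _ _ h1, h4, Nat.cast_pow, Nat.cast_ofNat, h5]
  · push Not at h3
    symm
    apply max_eq_left
    have h4 : n + 2 ^ j + 1 ≤ 2 ^ J := by omega
    have h5 : (n : ℝ) + 2 ^ j + 1 ≤ 2 ^ J := by exact_mod_cast h4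
    rw [abs_of_nonpos (by linarith)]
    linarith

lemma wt_zero {J n : ℕ} (h : 2 * 2 ^ J - 1 ≤ n) : wt J n = 0 := by
  unfold wt
  apply Finset.sum_eq_zero
  intro j hj
  rw [Finset.mem_Icc] at hj
  have h1 : 1 ≤ 2 ^ J := Nat.one_le_two_pow
  have h2r : (2 : ℝ) ^ j ≤ 2 ^ J := pow_le_pow_right₀ (by norm_num) hj.2
  have h2p : (0 : ℝ) < 2 ^ j := by positivity
  have h4 : 2 * 2 ^ J ≤ n + 1 := by omega
  have h5 : (2 : ℝ) * 2 ^ J ≤ n + 1 := by exact_mod_cast h4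
  rw [max_eq_left]
  rw [abs_of_nonneg (by linarith)]
  rw [sub_nonpos, le_div_iff₀ h2p]
  linarith

lemma wt_symm {J k : ℕ} (h : k ≤ 2 * 2 ^ J - 2) : wt J (2 * 2 ^ J - 2 - k) = wt J k := by
  unfold wt
  have h1 : 1 ≤ 2 ^ J := Nat.one_le_two_pow
  have e : ((2 * 2 ^ J - 2 - k : ℕ) : ℝ) = 2 * 2 ^ J - 2 - k := by
    rw [Nat.cast_sub h, Nat.cast_sub (by omega)]
    push_cast
    ring
  rw [e]
  refine Finset.sum_congr rfl fun j _ => ?_
  have e2 : |(2 : ℝ) * 2 ^ J - 2 - k - (2 ^ J - 1)| = |(k : ℝ) - (2 ^ J - 1)| := by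
    rw [← abs_neg]
    congr 1
    ring
  rw [e2]

/-- the interpolation weights: averages of the tents of width `2 ^ j` -/
noncomputable def lam (J k : ℕ) : ℝ := (∑ j ∈ Icc 1 J, max 0 (1 - (k : ℝ) / 2 ^ j)) / J

lemma wt_right {J : ℕ} (hJ : 1 ≤ J) (i : ℕ) : wt J (2 ^ J - 1 + i) = J * lam J i := by
  have h : (0 : ℝ) < J := by exact_mod_cast hJ
  have e : J * lam J i = ∑ j ∈ Icc 1 J, max 0 (1 - (i : ℝ) / 2 ^ j) := by
    unfold lam
    field_simp
  rw [e]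
  unfold wt
  refine Finset.sum_congr rfl fun j _ => ?_
  have h1 : 1 ≤ 2 ^ J := Nat.one_le_two_pow
  have e2 : ((2 ^ J - 1 + i : ℕ) : ℝ) - (2 ^ J - 1) = i := by
    push_cast [h1]
    ring
  rw [e2, abs_of_nonneg (Nat.cast_nonneg i)]

lemma wt_left {J : ℕ} (hJ : 1 ≤ J) {i : ℕ} (hi : i ≤ 2 ^ J - 1) :
    wt J (2 ^ J - 1 - i) = J * lam J i := by
  have h1 : 1 ≤ 2 ^ J := Nat.one_le_two_pow
  rw [← wt_right hJ i, ← wt_symm (k := 2 ^ J - 1 + i) (by omega)]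
  congr 1
  omega

lemma lam_zero {J : ℕ} (hJ : 1 ≤ J) : lam J 0 = 1 := by
  have h : (0 : ℝ) < J := by exact_mod_cast hJ
  unfold lam
  have e : ∑ j ∈ Icc 1 J, max 0 (1 - ((0 : ℕ) : ℝ) / 2 ^ j) = J := by
    have : ∀ j ∈ Icc 1 J, max 0 (1 - ((0 : ℕ) : ℝ) / 2 ^ j) = 1 := fun j _ => by simp
    rw [Finset.sum_congr rfl this]
    simp
  rw [e]
  exact div_self h.ne'

lemma lam_nonneg (J k : ℕ) : 0 ≤ lam J k := by
  unfold lam
  exact div_nonneg (Finset.sum_nonneg fun j _ => le_max_left _ _) (Nat.cast_nonneg J)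

lemma lam_le_one (J k : ℕ) : lam J k ≤ 1 := by
  unfold lam
  apply div_le_one_of_le₀ _ (Nat.cast_nonneg J)
  have h : ∀ j ∈ Icc 1 J, max 0 (1 - (k : ℝ) / 2 ^ j) ≤ 1 := by
    intro j _
    apply max_le (by norm_num)
    have : (0 : ℝ) ≤ (k : ℝ) / 2 ^ j := by positivity
    linarith
  refine (Finset.sum_le_sum h).trans ?_
  simp

/-- the interpolation defect -/
noncomputable def defect (x : ℕ → ℝ) (J n : ℕ) : ℝ :=
  x n + ∑ k ∈ Ico 1 (2 ^ J), lam J k * (x (n - k) + x (n + k))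

lemma sum_eq_defect (x : ℕ → ℝ) {J : ℕ} (hJ : 1 ≤ J) (n : ℕ) :
    ∑ k ∈ range (2 * 2 ^ J - 1), wt J k * x (n + k) = J * defect x J (n + (2 ^ J - 1)) := by
  have h1 : 1 ≤ 2 ^ J := Nat.one_le_two_pow
  have e1 : 2 * 2 ^ J - 1 = 2 * (2 ^ J - 1) + 1 := by omega
  have e2 : 2 ^ J - 1 + 1 = 2 ^ J := by omega
  rw [e1, sum_sym, e2]
  unfold defect
  rw [mul_add, Finset.mul_sum]
  have e3 : wt J (2 ^ J - 1) = J := by
    have := wt_right hJ 0
    rw [add_zero, lam_zero hJ, mul_one] at this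
    exact this
  rw [e3]
  congr 1
  refine Finset.sum_congr rfl fun k hk => ?_
  rw [Finset.mem_Ico] at hk
  rw [wt_left hJ (by omega), wt_right hJ]
  have e4 : n + (2 ^ J - 1) - k = n + (2 ^ J - 1 - k) := by omega
  have e5 : n + (2 ^ J - 1) + k = n + (2 ^ J - 1 + k) := by omega
  rw [e4, e5]
  ring

/-- **the finite interpolation inequality** -/
theorem fin (x : ℕ → ℝ) {J N : ℕ} (hJ : 1 ≤ J) {B : ℝ} (hB0 : 0 ≤ B)
    (hB : ∀ n, 1 ≤ n → n ≤ N + 2 * (2 ^ J - 1) → |x n| ≤ B) :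
    (J : ℝ) ^ 2 * ∑ n ∈ Icc 1 N, defect x J (n + (2 ^ J - 1)) ^ 2 ≤
      144 * BB J (fun m => ∑ n ∈ Icc 1 (N + 2 * (2 ^ J - 1)), (∑ i ∈ range m, x (n + i)) ^ 2 +
        2 * m * (m * B) ^ 2) := by
  have h1 : 1 ≤ 2 ^ J := Nat.one_le_two_pow
  obtain ⟨K2, hK2⟩ : ∃ K2, K2 = 2 * (2 ^ J - 1) := ⟨_, rfl⟩
  obtain ⟨N', hN'⟩ : ∃ N', N' = N + K2 := ⟨_, rfl⟩
  rw [← hK2, ← hN'] at hB ⊢
  obtain ⟨L, hL⟩ : ∃ L, L = N' + 16 * 2 ^ J + 1 := ⟨_, rfl⟩
  have hfd := fp_deg x N'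
  have key := trans J (fp x N') L (by omega)
    (fun m => ∑ n ∈ Icc 1 N', (∑ i ∈ range m, x (n + i)) ^ 2 + 2 * m * (m * B) ^ 2)
    (fun m hm1 _ => gs_fp x (N := N') (m := m) (L := L) (B := B) hm1 hB hB0 le_rfl)
  refine le_trans ?_ key
  have hcoef : ∀ n ∈ Icc 1 N, ∑ k ∈ range (2 * 2 ^ J - 1), wt J k * x (n + k) =
      (Pk J * fp x N').coeff (n + K2) := by
    intro n hn
    rw [Finset.mem_Icc] at hn
    rw [coeff_mul, Finset.Nat.sum_antidiagonal_eq_sum_range_succ_mk]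
    have e1 : ∑ k ∈ range (n + K2).succ, (Pk J).coeff k * (fp x N').coeff (n + K2 - k) =
        ∑ k ∈ range (K2 + 1), wt J k * x (n + K2 - k) := by
      have hsub : range (K2 + 1) ⊆ range (n + K2).succ := by
        intro k hk
        rw [Finset.mem_range] at hk ⊢
        omega
      rw [← Finset.sum_subset hsub]
      · refine Finset.sum_congr rfl fun k hk => ?_
        rw [Finset.mem_range] at hk
        rw [Pk_coeff, fp_coeff, if_pos (by omega)]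
      · intro k _ hk
        rw [Finset.mem_range] at hk
        rw [Pk_coeff, wt_zero (by omega), zero_mul]
    simp only
    rw [e1, ← Finset.sum_range_reflect]
    have e2 : 2 * 2 ^ J - 1 = K2 + 1 := by omega
    rw [e2]
    refine Finset.sum_congr rfl fun k hk => ?_
    rw [Finset.mem_range] at hk
    have e3 : K2 + 1 - 1 - k = 2 * 2 ^ J - 2 - k := by omega
    rw [e3, wt_symm (by omega)]
    congr 2
    omega
  have e1 : (J : ℝ) ^ 2 * ∑ n ∈ Icc 1 N, defect x J (n + (2 ^ J - 1)) ^ 2 =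
      ∑ n ∈ Icc 1 N, (Pk J * fp x N').coeff (n + K2) ^ 2 := by
    rw [Finset.mul_sum]
    refine Finset.sum_congr rfl fun n hn => ?_
    rw [← hcoef n hn, sum_eq_defect x hJ]
    ring
  have hinj : Set.InjOn (fun n => n + K2) ↑(Icc 1 N) := by
    intro a _ b _ hab
    simp only at hab
    omega
  have e2 : ∑ n ∈ Icc 1 N, (Pk J * fp x N').coeff (n + K2) ^ 2 =
      ∑ n ∈ (Icc 1 N).image (fun n => n + K2), (Pk J * fp x N').coeff n ^ 2 :=
    (Finset.sum_image (f := fun n => (Pk J * fp x N').coeff n ^ 2) hinj).symm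
  rw [e1, e2]
  apply Finset.sum_le_sum_of_subset_of_nonneg
  · intro k hk
    rw [Finset.mem_image] at hk
    obtain ⟨n, hn, rfl⟩ := hk
    rw [Finset.mem_Icc] at hn
    rw [Finset.mem_range]
    omega
  · intro k _ _
    positivity

end Pool.Agent.R960.GI.Uni
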