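import Pool.Agent.R960.GI.Uni
import Pool.Agent.H382R2.Final0

/-! # The numbers of zeros in neighbouring windows: interpolation -/

set_option autoImplicit false

open Filter Topology MeasureTheory Set
open SG (NZ)

namespace Pool.Agent.R960.GI.Win

/-- centred number of ordinates in a window -/
noncomputable def cc (a h t : ℝ) : ℝ := (NZ (t + h) : ℝ) - NZ t - a

lemma cc_sum (a h s : ℝ) (m : ℕ) :
    ∑ i ∈ Finset.range m, cc a h (s + i * h) = (NZ (s + m * h) : ℝ) - NZ s - m * a := by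
  induction m with
  | zero => simp
  | succ m ih =>
    rw [Finset.sum_range_succ, ih]
    unfold cc
    have e : s + ((m + 1 : ℕ) : ℝ) * h = s + m * h + h := by push_cast; ring
    rw [e]
    push_cast
    ring

lemma cc_sum' (a h s : ℝ) (n m : ℕ) :
    ∑ i ∈ Finset.range m, cc a h (s + ((n + i : ℕ) : ℝ) * h) =
      (NZ (s + n * h + m * h) : ℝ) - NZ (s + n * h) - m * a := by
  rw [← cc_sum]
  refine Finset.sum_congr rfl fun i _ => ?_
  congr 1
  push_cast
  ring

/-- sums over a progression, averaged over the starting point -/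
lemma sum_int {G : ℝ → ℝ} (hG : ∀ A B, IntervalIntegrable G volume A B) (s h : ℝ) (N : ℕ) :
    ∫ u in (0 : ℝ)..h, ∑ n ∈ Finset.Icc 1 N, G (s + u + n * h) =
      ∫ t in (s + h)..(s + (N + 1) * h), G t := by
  have hsh : ∀ c : ℝ, IntervalIntegrable (fun u => G (s + u + c)) volume 0 h := by
    intro c
    have h1 := (hG (0 + (s + c)) (h + (s + c))).comp_add_right (s + c)
    rw [add_sub_cancel_right, add_sub_cancel_right] at h1
    refine h1.congr fun u _ => ?_
    show G (u + (s + c)) = G (s + u + c)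
    congr 1
    ring
  induction N with
  | zero => simp
  | succ N ih =>
    have e1 : (fun u => ∑ n ∈ Finset.Icc 1 (N + 1), G (s + u + n * h)) =
        fun u => (∑ n ∈ Finset.Icc 1 N, G (s + u + n * h)) + G (s + u + ((N + 1 : ℕ) : ℝ) * h) := by
      funext u
      rw [Finset.sum_Icc_succ_top (by omega)]
    rw [e1, intervalIntegral.integral_add _ (hsh _), ih]
    · have e2 : ∫ u in (0 : ℝ)..h, G (s + u + ((N + 1 : ℕ) : ℝ) * h) =
          ∫ t in (s + (N + 1) * h)..(s + ((N + 1 : ℕ) + 1) * h), G t := by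
        have h1 := intervalIntegral.integral_comp_add_right (a := 0) (b := h) G (s + (N + 1) * h)
        have e3 : (fun u => G (s + u + ((N + 1 : ℕ) : ℝ) * h)) =
            fun u => G (u + (s + (N + 1) * h)) := by
          funext u
          congr 1
          push_cast
          ring
        rw [e3, h1]
        congr 1
        · ring
        · push_cast
          ring
      rw [e2]
      exact intervalIntegral.integral_add_adjacent_intervals (hG _ _) (hG _ _)
    · have h2 : (fun u => ∑ n ∈ Finset.Icc 1 N, G (s + u + n * h)) =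
          ∑ n ∈ Finset.Icc 1 N, fun u => G (s + u + n * h) := by
        funext u
        rw [Finset.sum_apply]
      rw [h2]
      exact IntervalIntegrable.sum _ fun n _ => hsh _

/-- the defect of the prediction -/
noncomputable def D (a h : ℝ) (J : ℕ) (t : ℝ) : ℝ :=
  cc a h t + ∑ k ∈ Finset.Ico 1 (2 ^ J), Uni.lam J k * (cc a h (t - k * h) + cc a h (t + k * h))

lemma cc_meas (a h : ℝ) : Measurable (cc a h) := by
  have h1 : Monotone fun t : ℝ => (NZ t : ℝ) := fun x y hxy => by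
    simp only
    exact_mod_cast SG.NZ_mono hxy
  unfold cc
  exact ((h1.measurable.comp (measurable_id.add_const h)).sub h1.measurable).sub_const a

lemma D_meas (a h : ℝ) (J : ℕ) : Measurable (D a h J) := by
  unfold D
  have h1 := cc_meas a h
  refine h1.add (Finset.measurable_sum _ fun k _ => ?_)
  exact ((h1.comp (measurable_id.sub_const _)).add (h1.comp (measurable_id.add_const _))).const_mul _

lemma cc_bd (a h A B : ℝ) : ∃ M : ℝ, ∀ t ∈ Icc A B, |cc a h t| ≤ M := by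
  refine ⟨NZ (B + |h|) + NZ (B + |h|) + |a|, fun t ht => ?_⟩
  have h1 : (NZ (t + h) : ℝ) ≤ NZ (B + |h|) := by
    have : t + h ≤ B + |h| := add_le_add ht.2 (le_abs_self h)
    exact_mod_cast SG.NZ_mono this
  have h2 : (NZ t : ℝ) ≤ NZ (B + |h|) := by
    have : t ≤ B + |h| := by linarith [ht.2, abs_nonneg h]
    exact_mod_cast SG.NZ_mono this
  have h3 : (0 : ℝ) ≤ NZ (t + h) := Nat.cast_nonneg _
  have h4 : (0 : ℝ) ≤ NZ t := Nat.cast_nonneg _
  unfold cc
  rw [abs_le]
  have h5 := neg_abs_le a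
  have h6 := le_abs_self a
  constructor <;> linarith

lemma D_bd {a h M t : ℝ} {J : ℕ} (hM : 0 ≤ M)
    (hc : ∀ k : ℕ, k < 2 ^ J → |cc a h (t - k * h)| ≤ M ∧ |cc a h (t + k * h)| ≤ M) :
    |D a h J t| ≤ (1 + 2 * 2 ^ J) * M := by
  unfold D
  have h0 : |cc a h t| ≤ M := by
    have := (hc 0 (by positivity)).1
    rwa [Nat.cast_zero, zero_mul, sub_zero] at this
  have h1 : |∑ k ∈ Finset.Ico 1 (2 ^ J), Uni.lam J k *
      (cc a h (t - k * h) + cc a h (t + k * h))| ≤ 2 ^ J * (2 * M) := by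
    refine (Finset.abs_sum_le_sum_abs _ _).trans ?_
    have h2 : ∀ k ∈ Finset.Ico 1 (2 ^ J), |Uni.lam J k *
        (cc a h (t - k * h) + cc a h (t + k * h))| ≤ 2 * M := by
      intro k hk
      rw [Finset.mem_Ico] at hk
      obtain ⟨h3, h4⟩ := hc k hk.2
      rw [abs_mul, abs_of_nonneg (Uni.lam_nonneg J k)]
      have h5 := Uni.lam_le_one J k
      have h6 := abs_add_le (cc a h (t - k * h)) (cc a h (t + k * h))
      calc _ ≤ 1 * |cc a h (t - k * h) + cc a h (t + k * h)| :=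
            mul_le_mul_of_nonneg_right h5 (abs_nonneg _)
        _ ≤ _ := by linarith
    refine (Finset.sum_le_sum h2).trans ?_
    rw [Finset.sum_const, Nat.card_Ico, nsmul_eq_mul]
    apply mul_le_mul_of_nonneg_right _ (by positivity)
    rw [Nat.cast_sub Nat.one_le_two_pow]
    push_cast
    linarith
  refine (abs_add_le _ _).trans ?_
  linarith

lemma D_sq_int (a h : ℝ) (J : ℕ) (A B : ℝ) :
    IntervalIntegrable (fun t => D a h J t ^ 2) volume A B := by
  obtain ⟨M, hM⟩ := cc_bd a h (min A B - 2 ^ J * |h|) (max A B + 2 ^ J * |h|)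
  have hM0 : 0 ≤ |M| := abs_nonneg _
  rw [intervalIntegrable_iff]
  refine Measure.integrableOn_of_bounded (M := ((1 + 2 * 2 ^ J) * |M|) ^ 2) ?_
    ((D_meas a h J).pow_const 2).aestronglyMeasurable ?_
  · rw [uIoc, Real.volume_Ioc]
    exact ENNReal.ofReal_ne_top
  · refine (ae_restrict_iff' measurableSet_uIoc).mpr (ae_of_all _ fun t ht => ?_)
    rw [uIoc, mem_Ioc] at ht
    rw [Real.norm_eq_abs, abs_of_nonneg (sq_nonneg _), ← sq_abs]
    apply pow_le_pow_left₀ (abs_nonneg _)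
    apply D_bd hM0
    intro k hk
    have hk' : (k : ℝ) ≤ 2 ^ J := by exact_mod_cast hk.le
    have h1 : |(k : ℝ) * h| ≤ 2 ^ J * |h| := by
      rw [abs_mul, abs_of_nonneg (Nat.cast_nonneg k)]
      exact mul_le_mul_of_nonneg_right hk' (abs_nonneg _)
    have h2 := abs_le.mp h1
    exact ⟨(hM _ ⟨by linarith [ht.1], by linarith [ht.2]⟩).trans (le_abs_self M),
      (hM _ ⟨by linarith [ht.1], by linarith [ht.2]⟩).trans (le_abs_self M)⟩

lemma defect_eq (a h s : ℝ) (J n : ℕ) :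
    Uni.defect (fun n : ℕ => cc a h (s + n * h)) J (n + (2 ^ J - 1)) =
      D a h J (s + (2 ^ J - 1 : ℕ) * h + n * h) := by
  unfold Uni.defect D
  have e0 : s + ((n + (2 ^ J - 1) : ℕ) : ℝ) * h = s + (2 ^ J - 1 : ℕ) * h + n * h := by
    rw [Nat.cast_add]
    ring
  simp only
  rw [e0]
  congr 1
  refine Finset.sum_congr rfl fun k hk => ?_
  rw [Finset.mem_Ico] at hk
  have e1 : s + ((n + (2 ^ J - 1) - k : ℕ) : ℝ) * h =
      s + (2 ^ J - 1 : ℕ) * h + n * h - k * h := by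
    rw [Nat.cast_sub (by omega), Nat.cast_add]
    ring
  have e2 : s + ((n + (2 ^ J - 1) + k : ℕ) : ℝ) * h =
      s + (2 ^ J - 1 : ℕ) * h + n * h + k * h := by
    rw [Nat.cast_add, Nat.cast_add]
    ring
  rw [e1, e2]

lemma cc_sq_int (a h A B : ℝ) : IntervalIntegrable (fun t => cc a h t ^ 2) volume A B := by
  obtain ⟨M, hM⟩ := cc_bd a h (min A B) (max A B)
  rw [intervalIntegrable_iff]
  refine Measure.integrableOn_of_bounded (M := M ^ 2) ?_
    ((cc_meas a h).pow_const 2).aestronglyMeasurable ?_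
  · rw [uIoc, Real.volume_Ioc]
    exact ENNReal.ofReal_ne_top
  · refine (ae_restrict_iff' measurableSet_uIoc).mpr (ae_of_all _ fun t ht => ?_)
    rw [uIoc, mem_Ioc] at ht
    rw [Real.norm_eq_abs, abs_of_nonneg (sq_nonneg _), ← sq_abs]
    exact pow_le_pow_left₀ (abs_nonneg _) (hM t ⟨ht.1.le, ht.2⟩) 2

lemma BB_const (J : ℕ) (c : ℝ) : BB J (fun _ => c) = 3 * c := by
  unfold BB
  rw [Finset.sum_const, Nat.card_Ico, nsmul_eq_mul]
  have e : 2 * (8 * 2 ^ J) - 8 * 2 ^ J = 8 * 2 ^ J := by omega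
  rw [e]
  push_cast
  field_simp
  ring

lemma BB_int (J : ℕ) (Φ : ℝ → ℕ → ℝ) (h : ℝ)
    (hΦ : ∀ m, IntervalIntegrable (fun u => Φ u m) volume 0 h) :
    IntervalIntegrable (fun u => BB J (Φ u)) volume 0 h ∧
    ∫ u in (0 : ℝ)..h, BB J (Φ u) = BB J (fun m => ∫ u in (0 : ℝ)..h, Φ u m) := by
  unfold BB
  have h1 : IntervalIntegrable (fun u => 2 * Φ u (2 ^ J)) volume 0 h := (hΦ _).const_mul 2
  have e2 : (fun u => ∑ m ∈ Finset.Ico (8 * 2 ^ J) (2 * (8 * 2 ^ J)), Φ u m) =
      ∑ m ∈ Finset.Ico (8 * 2 ^ J) (2 * (8 * 2 ^ J)), fun u => Φ u m := by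
    funext u
    rw [Finset.sum_apply]
  have h2 : IntervalIntegrable
      (fun u => ∑ m ∈ Finset.Ico (8 * 2 ^ J) (2 * (8 * 2 ^ J)), Φ u m) volume 0 h := by
    rw [e2]
    exact IntervalIntegrable.sum _ fun m _ => hΦ m
  have h3 := h2.const_mul (1 / (8 * 2 ^ J : ℝ))
  refine ⟨h1.add h3, ?_⟩
  rw [intervalIntegral.integral_add h1 h3, intervalIntegral.integral_const_mul,
    intervalIntegral.integral_const_mul, intervalIntegral.integral_finsetSum fun m _ => hΦ m]

lemma log_small_real (c : ℝ) : ∀ᶠ T : ℝ in atTop, c * (1 + Real.log T) ^ 2 ≤ T := by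
  have h1 : Tendsto (fun x : ℝ => (1 + Real.log x) ^ 2 / x) atTop (𝓝 0) := by
    have h2 : Tendsto (fun x : ℝ => 1 / x) atTop (𝓝 0) := by
      simpa using tendsto_inv_atTop_zero
    have h3 : Tendsto (fun x : ℝ => Real.log x ^ 1 / x) atTop (𝓝 0) := by
      have := Real.tendsto_pow_log_div_mul_add_atTop 1 0 1 one_ne_zero
      simpa using this
    have h4 : Tendsto (fun x : ℝ => Real.log x ^ 2 / x) atTop (𝓝 0) := by
      have := Real.tendsto_pow_log_div_mul_add_atTop 1 0 2 one_ne_zero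
      simpa using this
    have h5 := (h2.add (h3.const_mul 2)).add h4
    simp only [mul_zero, add_zero] at h5
    refine h5.congr fun x => ?_
    ring
  have h2 := h1.const_mul |c|
  rw [mul_zero] at h2
  filter_upwards [h2.eventually_lt_const one_pos, eventually_gt_atTop 0] with T h3 hT
  rw [← mul_div_assoc, div_lt_iff₀ hT, one_mul] at h3
  have h5 : c * (1 + Real.log T) ^ 2 ≤ |c| * (1 + Real.log T) ^ 2 :=
    mul_le_mul_of_nonneg_right (le_abs_self c) (sq_nonneg _)
  linarith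

lemma cc_le {C1 a h T t : ℝ} (hC1 : 0 < C1)
    (hu : ∀ t : ℝ, 3 ≤ t → (NZ (t + 1) : ℝ) ≤ NZ t + C1 * Real.log t) (ha : 0 < a)
    (h0 : 0 ≤ h) (h1 : h ≤ 1) (hT : 6 ≤ T) (ht1 : T / 2 ≤ t) (ht2 : t ≤ 3 * T) :
    |cc a h t| ≤ 2 * C1 * Real.log T + a := by
  have h2 : (NZ t : ℝ) ≤ NZ (t + h) := by
    have : t ≤ t + h := by linarith
    exact_mod_cast SG.NZ_mono this
  have h3 : (NZ (t + h) : ℝ) ≤ NZ (t + 1) := by
    have : t + h ≤ t + 1 := by linarith
    exact_mod_cast SG.NZ_mono this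
  have h4 := hu t (by linarith)
  have h5 : Real.log t ≤ 2 * Real.log T := by
    have h6 : Real.log t ≤ Real.log (T ^ 2) := Real.log_le_log (by linarith) (by nlinarith)
    rw [Real.log_pow] at h6
    exact_mod_cast h6
  have h6 : 0 ≤ Real.log T := Real.log_nonneg (by linarith)
  have h7 : C1 * Real.log t ≤ C1 * (2 * Real.log T) := mul_le_mul_of_nonneg_left h5 hC1.le
  have h8 : 0 ≤ C1 * Real.log T := by positivity
  unfold cc
  rw [abs_le]
  constructor <;> linarith

lemma log_bd2 {a : ℝ} (ha : 0 < a) {J m : ℕ} (haJ : Real.log (1 + a) ≤ J) (hm1 : 1 ≤ m)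
    (hm2 : m ≤ 16 * 2 ^ J) : Real.log (1 + m * a) ≤ J + (J + 4) := by
  have hm1r : (1 : ℝ) ≤ m := by exact_mod_cast hm1
  have h0 : 1 + m * a ≤ m * (1 + a) := by
    have : m * (1 + a) = m + m * a := by ring
    linarith
  have h1 : Real.log (1 + m * a) ≤ Real.log (m * (1 + a)) := Real.log_le_log (by positivity) h0
  rw [Real.log_mul (by positivity) (by positivity)] at h1
  have h2 : Real.log m ≤ Real.log (16 * 2 ^ J) := by
    apply Real.log_le_log (by positivity)
    exact_mod_cast hm2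
  have h5 : Real.log (16 * 2 ^ J) = (4 + J) * Real.log 2 := by
    rw [Real.log_mul (by norm_num) (by positivity), Real.log_pow,
      show (16 : ℝ) = 2 ^ 4 by norm_num, Real.log_pow]
    push_cast
    ring
  have h6 : Real.log 2 < 0.6931471808 := Real.log_two_lt_d9
  have h7 : (4 + (J : ℝ)) * Real.log 2 ≤ (4 + J) * 1 :=
    mul_le_mul_of_nonneg_left (by linarith) (by positivity)
  linarith

lemma g5_lem {T C l J : ℝ} (hT : 0 ≤ T) (hJ : 1 ≤ J) (hC : 1 ≤ C) (hl : l ≤ J + (J + 4)) :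
    T * (C + l) + T ≤ T * ((C + 7) * J) := by
  have h1 : C + l + 1 ≤ (C + 7) * J := by nlinarith
  have h2 := mul_le_mul_of_nonneg_left h1 hT
  linarith

/-- **the main inequality** -/
theorem main_ineq {C C1 T0 : ℝ} (hC : 1 ≤ C)
    (hv : ∀ T : ℝ, T0 ≤ T → ∀ a : ℝ, 0 < a → a * Real.log a ≤ Real.log T →
      ∫ t in T..(2 * T), cc a (2 * Real.pi * a / Real.log T) t ^ 2 ≤ T * (C + Real.log (1 + a)))
    (hC1 : 0 < C1) (hu : ∀ t : ℝ, 3 ≤ t → (NZ (t + 1) : ℝ) ≤ NZ t + C1 * Real.log t)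
    {a : ℝ} (ha : 0 < a) {J : ℕ} (hJ : 1 ≤ J) (haJ : Real.log (1 + a) ≤ J) :
    ∀ᶠ T : ℝ in atTop, ∫ t in T..(2 * T), D a (2 * Real.pi * a / Real.log T) J t ^ 2 ≤
      (432 * (C + 7) + 1) / J * T := by
  have hJr : (1 : ℝ) ≤ J := by exact_mod_cast hJ
  have hpi := Real.pi_gt_three
  obtain ⟨M0, hM0⟩ : ∃ M0, M0 = 16 * 2 ^ J := ⟨_, rfl⟩
  have ev2 : ∀ᶠ T : ℝ in atTop, ∀ m ∈ Finset.Icc 1 M0, (m * a) * Real.log (m * a) ≤ Real.log T := by
    rw [Filter.eventually_all_finset]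
    intro m _
    exact Real.tendsto_log_atTop.eventually_ge_atTop _
  have ev3 := Real.tendsto_log_atTop.eventually_ge_atTop (2 * Real.pi * a)
  have ev3' := Real.tendsto_log_atTop.eventually_ge_atTop 1
  have ev4 := log_small_real (2 * (M0 : ℝ) ^ 3 * (2 * C1 + a) ^ 2)
  have ev5 := log_small_real (J * (2 * 2 ^ J * ((1 + 2 * 2 ^ J) * (2 * C1 + a)) ^ 2))
  filter_upwards [ev2, ev3, ev3', ev4, ev5, eventually_ge_atTop T0, eventually_ge_atTop 10,
    eventually_ge_atTop (2 * 2 ^ J + 2)] with T e2 e3 e3' e4 e5 hT0 hT10 hTJ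
  have hL : 0 < Real.log T := by linarith
  obtain ⟨h, hh⟩ : ∃ h, h = 2 * Real.pi * a / Real.log T := ⟨_, rfl⟩
  rw [← hh]
  have hh0 : 0 < h := by rw [hh]; positivity
  have hh1 : h ≤ 1 := by
    rw [hh, div_le_one hL]
    exact e3
  obtain ⟨B, hB⟩ : ∃ B, B = 2 * C1 * Real.log T + a := ⟨_, rfl⟩
  have hB0 : 0 ≤ B := by rw [hB]; positivity
  have hBle : B ≤ (2 * C1 + a) * (1 + Real.log T) := by
    have h1 : (2 * C1 + a) * (1 + Real.log T) = 2 * C1 * Real.log T + a + (2 * C1 + a * Real.log T) := by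
      ring
    have h2 : 0 ≤ 2 * C1 + a * Real.log T := by positivity
    rw [hB]
    linarith
  have hccB : ∀ t, T / 2 ≤ t → t ≤ 3 * T → |cc a h t| ≤ B := fun t h1 h2 => by
    rw [hB]
    exact cc_le hC1 hu ha hh0.le hh1 (by linarith) h1 h2
  obtain ⟨K, hK⟩ : ∃ K, K = 2 ^ J - 1 := ⟨_, rfl⟩
  have hK1 : K + 1 = 2 ^ J := by
    have : 1 ≤ 2 ^ J := Nat.one_le_two_pow
    omega
  have hK1r : (K : ℝ) + 1 = 2 ^ J := by exact_mod_cast hK1
  obtain ⟨Q, hQ⟩ : ∃ Q, Q = ⌊T / h⌋₊ := ⟨_, rfl⟩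
  have hTh : 0 ≤ T / h := by positivity
  have hQ1 : (Q : ℝ) * h ≤ T := by
    have := Nat.floor_le hTh
    rw [← hQ, le_div_iff₀ hh0] at this
    exact this
  have hQ2 : T < (Q + 1) * h := by
    have := Nat.lt_floor_add_one (T / h)
    rw [← hQ, div_lt_iff₀ hh0] at this
    exact this
  have hQ3 : 2 * K + 2 ≤ Q := by
    rw [hQ]
    apply Nat.le_floor
    rw [le_div_iff₀ hh0]
    push_cast
    have h1 : (2 * (K : ℝ) + 2) * h ≤ (2 * (K : ℝ) + 2) * 1 :=
      mul_le_mul_of_nonneg_left hh1 (by positivity)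
    linarith
  obtain ⟨N, hN⟩ : ∃ N, N + 2 * K + 1 = Q := ⟨Q - 2 * K - 1, by omega⟩
  have hNr : (N : ℝ) + 2 * K + 1 = Q := by exact_mod_cast hN
  have hN'h : ((N : ℝ) + 2 * K + 1) * h ≤ T := by rw [hNr]; exact hQ1
  -- the pointwise inequality
  have hpt : ∀ u ∈ Icc (0 : ℝ) h, (J : ℝ) ^ 2 *
      ∑ n ∈ Finset.Icc 1 N, D a h J (T + K * h + u + n * h) ^ 2 ≤
      144 * BB J (fun m => ∑ n ∈ Finset.Icc 1 (N + 2 * K), cc (m * a) (m * h) (T + u + n * h) ^ 2 +
        2 * m * (m * B) ^ 2) := by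
    intro u hu'
    have hf := Uni.fin (fun n : ℕ => cc a h (T + u + n * h)) (J := J) (N := N) hJ hB0 (by
      intro n _ hn
      rw [← hK] at hn
      have hn' : (n : ℝ) ≤ N + 2 * K := by exact_mod_cast hn
      have h1 : (n : ℝ) * h ≤ (N + 2 * K) * h := mul_le_mul_of_nonneg_right hn' hh0.le
      have h2 : 0 ≤ (n : ℝ) * h := by positivity
      have h3 : ((N : ℝ) + 2 * K + 1) * h = (N + 2 * K) * h + h := by ring
      have h4 := hu'.1
      have h5 := hu'.2
      apply hccB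
      · linarith
      · linarith)
    rw [← hK] at hf
    have e1 : ∑ n ∈ Finset.Icc 1 N, D a h J (T + K * h + u + n * h) ^ 2 =
        ∑ n ∈ Finset.Icc 1 N, Uni.defect (fun n : ℕ => cc a h (T + u + n * h)) J (n + K) ^ 2 := by
      refine Finset.sum_congr rfl fun n _ => ?_
      rw [hK, defect_eq]
      congr 2
      ring
    rw [e1]
    refine hf.trans (le_of_eq ?_)
    congr 2
    funext m
    congr 1
    refine Finset.sum_congr rfl fun n _ => ?_
    rw [cc_sum']
    rfl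
  -- integration
  have hΦi : ∀ m : ℕ, IntervalIntegrable (fun u => ∑ n ∈ Finset.Icc 1 (N + 2 * K),
      cc (m * a) (m * h) (T + u + n * h) ^ 2) volume 0 h := by
    intro m
    have h2 : (fun u => ∑ n ∈ Finset.Icc 1 (N + 2 * K), cc (m * a) (m * h) (T + u + n * h) ^ 2) =
        ∑ n ∈ Finset.Icc 1 (N + 2 * K), fun u => cc (m * a) (m * h) (T + u + n * h) ^ 2 := by
      funext u
      rw [Finset.sum_apply]
    rw [h2]
    refine IntervalIntegrable.sum _ fun n _ => ?_
    have h1 := (cc_sq_int (m * a) (m * h) (0 + (T + n * h)) (h + (T + n * h))).comp_add_right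
      (T + n * h)
    rw [add_sub_cancel_right, add_sub_cancel_right] at h1
    refine h1.congr fun u _ => ?_
    show cc (m * a) (m * h) (u + (T + n * h)) ^ 2 = cc (m * a) (m * h) (T + u + n * h) ^ 2
    congr 2
    ring
  obtain ⟨hBi, hBe⟩ := BB_int J (fun u m => ∑ n ∈ Finset.Icc 1 (N + 2 * K),
    cc (m * a) (m * h) (T + u + n * h) ^ 2 + 2 * m * (m * B) ^ 2) h
    (fun m => (hΦi m).add intervalIntegrable_const)
  have hDi : IntervalIntegrable (fun u => ∑ n ∈ Finset.Icc 1 N,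
      D a h J (T + K * h + u + n * h) ^ 2) volume 0 h := by
    have h2 : (fun u => ∑ n ∈ Finset.Icc 1 N, D a h J (T + K * h + u + n * h) ^ 2) =
        ∑ n ∈ Finset.Icc 1 N, fun u => D a h J (T + K * h + u + n * h) ^ 2 := by
      funext u
      rw [Finset.sum_apply]
    rw [h2]
    refine IntervalIntegrable.sum _ fun n _ => ?_
    have h1 := (D_sq_int a h J (0 + (T + K * h + n * h)) (h + (T + K * h + n * h))).comp_add_right
      (T + K * h + n * h)
    rw [add_sub_cancel_right, add_sub_cancel_right] at h1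
    refine h1.congr fun u _ => ?_
    show D a h J (u + (T + K * h + n * h)) ^ 2 = D a h J (T + K * h + u + n * h) ^ 2
    congr 2
    ring
  have hmono := intervalIntegral.integral_mono_on hh0.le (hDi.const_mul ((J : ℝ) ^ 2))
    (hBi.const_mul 144) hpt
  rw [intervalIntegral.integral_const_mul, intervalIntegral.integral_const_mul, hBe,
    sum_int (fun A B => D_sq_int a h J A B)] at hmono
  -- the bound for the integrals
  have hbd : BB J (fun m => ∫ u in (0 : ℝ)..h, (∑ n ∈ Finset.Icc 1 (N + 2 * K),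
      cc (m * a) (m * h) (T + u + n * h) ^ 2 + 2 * m * (m * B) ^ 2)) ≤
      3 * (T * ((C + 7) * J)) := by
    rw [← BB_const J]
    apply BB_mono
    intro m hm1 hm2
    rw [intervalIntegral.integral_add (hΦi m) intervalIntegrable_const,
      sum_int (fun A B => cc_sq_int (m * a) (m * h) A B), intervalIntegral.integral_const,
      smul_eq_mul, sub_zero]
    have hm1r : (1 : ℝ) ≤ m := by exact_mod_cast hm1
    have hmM : (m : ℝ) ≤ M0 := by exact_mod_cast (by omega : m ≤ M0)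
    have hma : 0 < (m : ℝ) * a := by positivity
    have g1 : ∫ t in (T + h)..(T + (((N + 2 * K : ℕ) : ℝ) + 1) * h), cc (m * a) (m * h) t ^ 2 ≤
        ∫ t in T..(2 * T), cc (m * a) (m * h) t ^ 2 := by
      have gp : h ≤ (((N + 2 * K : ℕ) : ℝ) + 1) * h := by
        apply le_mul_of_one_le_left hh0.le
        have : (0 : ℝ) ≤ ((N + 2 * K : ℕ) : ℝ) := Nat.cast_nonneg _
        linarith
      have gq : (((N + 2 * K : ℕ) : ℝ) + 1) * h ≤ T := by
        rw [Nat.cast_add, Nat.cast_mul]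
        exact hN'h
      apply intervalIntegral.integral_mono_interval
      · linarith
      · linarith
      · linarith
      · exact Filter.Eventually.of_forall fun t => sq_nonneg _
      · exact cc_sq_int _ _ _ _
    have g2 := hv T hT0 (m * a) hma (e2 m (Finset.mem_Icc.mpr ⟨hm1, by omega⟩))
    have eh : 2 * Real.pi * (m * a) / Real.log T = m * h := by rw [hh]; ring
    rw [eh] at g2
    have g3 : h * (2 * m * (m * B) ^ 2) ≤ T := by
      have h1 : h * (2 * m * (m * B) ^ 2) ≤ 1 * (2 * m * (m * B) ^ 2) :=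
        mul_le_mul_of_nonneg_right hh1 (by positivity)
      refine h1.trans (le_trans ?_ e4)
      have h2 : (m : ℝ) ^ 3 ≤ (M0 : ℝ) ^ 3 := pow_le_pow_left₀ (by linarith) hmM 3
      have h3 : B ^ 2 ≤ ((2 * C1 + a) * (1 + Real.log T)) ^ 2 := pow_le_pow_left₀ hB0 hBle 2
      calc 1 * (2 * m * (m * B) ^ 2) = 2 * (m : ℝ) ^ 3 * B ^ 2 := by ring
        _ ≤ 2 * (M0 : ℝ) ^ 3 * ((2 * C1 + a) * (1 + Real.log T)) ^ 2 := by gcongr
        _ = _ := by ring
    have g4 := log_bd2 ha haJ hm1 hm2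
    have g5 := g5_lem (show 0 ≤ T by linarith) hJr hC g4
    linarith
  have hmid : ∫ t in (T + K * h + h)..(T + K * h + (N + 1) * h), D a h J t ^ 2 ≤
      432 * (C + 7) / J * T := by
    have h1 : (J : ℝ) ^ 2 * ∫ t in (T + K * h + h)..(T + K * h + (N + 1) * h), D a h J t ^ 2 ≤
        144 * (3 * (T * ((C + 7) * J))) := hmono.trans (mul_le_mul_of_nonneg_left hbd (by norm_num))
    have h2 : 144 * (3 * (T * ((C + 7) * J))) = (J : ℝ) ^ 2 * (432 * (C + 7) / J * T) := by
      field_simp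
      ring
    rw [h2] at h1
    exact le_of_mul_le_mul_left h1 (by positivity)
  -- the edges
  have hDB : ∀ t ∈ Icc T (2 * T), D a h J t ^ 2 ≤ ((1 + 2 * 2 ^ J) * B) ^ 2 := by
    intro t ht
    rw [← sq_abs]
    apply pow_le_pow_left₀ (abs_nonneg _)
    apply D_bd hB0
    intro k hk
    have hk' : (k : ℝ) ≤ 2 ^ J := by exact_mod_cast hk.le
    have h1 : (k : ℝ) * h ≤ 2 ^ J * 1 := mul_le_mul hk' hh1 hh0.le (by positivity)
    have h2 : 0 ≤ (k : ℝ) * h := by positivity
    have h3 := ht.1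
    have h4 := ht.2
    constructor
    · apply hccB <;> linarith
    · apply hccB <;> linarith
  have hedge : ∀ x y : ℝ, T ≤ x → x ≤ y → y ≤ 2 * T → y - x ≤ 2 ^ J →
      ∫ t in x..y, D a h J t ^ 2 ≤ 2 ^ J * ((1 + 2 * 2 ^ J) * B) ^ 2 := by
    intro x y hx hxy hy hd
    have h1 := intervalIntegral.integral_mono_on hxy (D_sq_int a h J x y)
      (intervalIntegrable_const (c := ((1 + 2 * 2 ^ J) * B) ^ 2))
      (fun t ht => hDB t ⟨hx.trans ht.1, ht.2.trans hy⟩)
    rw [intervalIntegral.integral_const, smul_eq_mul] at h1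
    exact h1.trans (mul_le_mul_of_nonneg_right hd (sq_nonneg _))
  have hKh : ((K : ℝ) + 1) * h ≤ 2 ^ J := by
    rw [hK1r]
    calc (2 : ℝ) ^ J * h ≤ 2 ^ J * 1 := mul_le_mul_of_nonneg_left hh1 (by positivity)
      _ = _ := mul_one _
  have hN0 : (0 : ℝ) ≤ N := Nat.cast_nonneg N
  have hK0 : (0 : ℝ) ≤ K := Nat.cast_nonneg K
  have hKh0 : 0 ≤ (K : ℝ) * h := by positivity
  have hNh0 : 0 ≤ (N : ℝ) * h := by positivity
  have hKh' : (K : ℝ) * h + h ≤ 2 ^ J := by
    have : ((K : ℝ) + 1) * h = K * h + h := by ring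
    linarith
  have hN'h' : (N : ℝ) * h + 2 * (K * h) + h ≤ T := by
    have : ((N : ℝ) + 2 * K + 1) * h = N * h + 2 * (K * h) + h := by ring
    linarith
  have hQexp : T < (N : ℝ) * h + 2 * (K * h) + 2 * h := by
    have h1 : T < ((N : ℝ) + 2 * K + 1 + 1) * h := by rw [hNr]; exact hQ2
    have : ((N : ℝ) + 2 * K + 1 + 1) * h = N * h + 2 * (K * h) + 2 * h := by ring
    linarith
  have eN1 : ((N : ℝ) + 1) * h = N * h + h := by ring
  have hE1 := hedge T (T + K * h + h) le_rfl (by linarith) (by linarith) (by linarith)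
  have hE2 := hedge (T + K * h + (N + 1) * h) (2 * T) (by rw [eN1]; linarith)
    (by rw [eN1]; linarith) le_rfl (by rw [eN1]; linarith)
  have hsplit : ∫ t in T..(2 * T), D a h J t ^ 2 =
      (∫ t in T..(T + K * h + h), D a h J t ^ 2) +
      (∫ t in (T + K * h + h)..(T + K * h + (N + 1) * h), D a h J t ^ 2) +
      ∫ t in (T + K * h + (N + 1) * h)..(2 * T), D a h J t ^ 2 := by
    rw [intervalIntegral.integral_add_adjacent_intervals (D_sq_int a h J _ _)
      (D_sq_int a h J _ _), intervalIntegral.integral_add_adjacent_intervals (D_sq_int a h J _ _)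
      (D_sq_int a h J _ _)]
  rw [hsplit]
  have hJT : 2 * (2 ^ J * ((1 + 2 * 2 ^ J) * B) ^ 2) ≤ 1 / J * T := by
    rw [one_div, inv_mul_eq_div, le_div_iff₀ (by linarith), mul_comm]
    refine le_trans ?_ e5
    have h3 : B ^ 2 ≤ ((2 * C1 + a) * (1 + Real.log T)) ^ 2 := pow_le_pow_left₀ hB0 hBle 2
    calc (J : ℝ) * (2 * (2 ^ J * ((1 + 2 * 2 ^ J) * B) ^ 2)) =
          J * (2 * (2 ^ J * (1 + 2 * 2 ^ J) ^ 2)) * B ^ 2 := by ring
      _ ≤ J * (2 * (2 ^ J * (1 + 2 * 2 ^ J) ^ 2)) * ((2 * C1 + a) * (1 + Real.log T)) ^ 2 := by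
          gcongr
      _ = _ := by ring
  have hfin : (432 * (C + 7) + 1) / J * T = 432 * (C + 7) / J * T + 1 / J * T := by ring
  rw [hfin]
  linarith

end Pool.Agent.R960.GI.Win
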