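import Pool.Agent.R960.GI.Win
import Pool.Agent.Y743.NC.Block

/-! # Number rigidity of the zeros in windows -/

set_option autoImplicit false

open Filter Topology MeasureTheory Set
open SG (NZ)

namespace Pool.Agent.R960.GI.Win

theorem mean_sq : ∃ C : ℝ, 0 < C ∧ ∀ a : ℝ, 0 < a → ∀ J : ℕ, 1 ≤ J → Real.log (1 + a) ≤ J →
    ∀ᶠ T : ℝ in atTop, ∫ t in T..(2 * T), D a (2 * Real.pi * a / Real.log T) J t ^ 2 ≤
      C / J * T := by
  obtain ⟨C, T0, hC, hT0, hv⟩ := Pool.Agent.Y743.NC.var_le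
  obtain ⟨C1, hC1, hu⟩ := Pool.Agent.Y743.NC.unit_count
  refine ⟨432 * (C + 7) + 1, by linarith, fun a ha J hJ haJ => ?_⟩
  refine main_ineq (T0 := T0) hC (fun T hT a ha h => ?_) hC1 hu ha hJ haJ
  have h1 := hv T hT a ha h
  rw [intervalIntegral.integral_of_le (by linarith), ← integral_Icc_eq_integral_Ioc]
  exact h1

lemma round_eq_of {x : ℝ} {n : ℤ} (h : |(n : ℝ) - x| < 1 / 2) : round x = n := by
  have h1 := abs_sub_round x
  have h2 : |((round x - n : ℤ) : ℝ)| < 1 := by
    push_cast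
    have e : (round x : ℝ) - n = -(x - round x) + -((n : ℝ) - x) := by ring
    rw [e]
    refine (abs_add_le _ _).trans_lt ?_
    rw [abs_neg, abs_neg]
    linarith
  have h3 : |round x - n| < 1 := by exact_mod_cast h2
  have h4 := Int.abs_lt_one_iff.mp h3
  omega

/-- the exceptional set -/
theorem exc {a h C T : ℝ} {J : ℕ} (hT : 0 ≤ T)
    (hD : ∫ t in T..(2 * T), D a h J t ^ 2 ≤ C / J * T) :
    volume.real {t : ℝ | T ≤ t ∧ t ≤ 2 * T ∧
      round ((NZ (t + h) : ℝ) - NZ t - D a h J t) ≠ (NZ (t + h) : ℤ) - NZ t} ≤ 4 * C / J * T := by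
  have h1 : IntegrableOn (fun t => D a h J t ^ 2) (Icc T (2 * T)) := by
    have := D_sq_int a h J T (2 * T)
    rwa [intervalIntegrable_iff_integrableOn_Icc_of_le (by linarith)] at this
  have h2 := mul_meas_ge_le_integral_of_nonneg (μ := volume.restrict (Icc T (2 * T)))
    (f := fun t => D a h J t ^ 2) (ae_of_all _ fun t => sq_nonneg _) h1 (1 / 4)
  rw [intervalIntegral.integral_of_le (by linarith), ← integral_Icc_eq_integral_Ioc] at hD
  have hms : MeasurableSet {t : ℝ | 1 / 4 ≤ D a h J t ^ 2} :=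
    measurableSet_le measurable_const ((D_meas a h J).pow_const 2)
  rw [measureReal_restrict_apply hms] at h2
  have h3 : volume.real {t : ℝ | T ≤ t ∧ t ≤ 2 * T ∧
      round ((NZ (t + h) : ℝ) - NZ t - D a h J t) ≠ (NZ (t + h) : ℤ) - NZ t} ≤
      volume.real ({t : ℝ | 1 / 4 ≤ D a h J t ^ 2} ∩ Icc T (2 * T)) := by
    apply measureReal_mono
    · intro t ht
      obtain ⟨h4, h5, h6⟩ := ht
      refine ⟨?_, h4, h5⟩
      by_contra hcon
      apply h6
      apply round_eq_of
      have h7 : D a h J t ^ 2 < (1 / 2) ^ 2 := by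
        have : ¬ 1 / 4 ≤ D a h J t ^ 2 := hcon
        push Not at this
        linarith
      have h8 := abs_lt_of_sq_lt_sq h7 (by norm_num)
      push_cast
      have e : (NZ (t + h) : ℝ) - NZ t - ((NZ (t + h) : ℝ) - NZ t - D a h J t) = D a h J t := by
        ring
      rw [e]
      exact h8
    · exact ((measure_mono inter_subset_right).trans_lt (by
        rw [Real.volume_Icc]
        exact ENNReal.ofReal_lt_top)).ne
  have h4 : 1 / 4 * volume.real ({t : ℝ | 1 / 4 ≤ D a h J t ^ 2} ∩ Icc T (2 * T)) ≤ C / J * T :=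
    h2.trans hD
  have e : 4 * C / J * T = 4 * (C / J * T) := by ring
  rw [e]
  linarith

end Pool.Agent.R960.GI.Win
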